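import Mathlib

namespace Pool.Agent.H27.ZDR

open WeakDual

section Comm
variable {B : Type*} [CommCStarAlgebra B]

lemma eq_top_of_separates (a : B)
    (hsep : ∀ φ ψ : characterSpace ℂ B, φ a = ψ a → φ = ψ)
    (G : StarSubalgebra ℂ B) (hG : IsClosed (G : Set B)) (haG : a ∈ G) : G = ⊤ := by
  classical
  let g := gelfandStarTransform B
  have hiso : Isometry g := gelfandTransform_isometry B
  let G' : StarSubalgebra ℂ C(characterSpace ℂ B, ℂ) := G.map (g : B →⋆ₐ[ℂ] C(characterSpace ℂ B, ℂ))
  have hG'c : IsClosed (G' : Set C(characterSpace ℂ B, ℂ)) := by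
    have : (G' : Set C(characterSpace ℂ B, ℂ)) = g '' (G : Set B) := by
      ext x; simp [G']
    rw [this]
    exact hiso.isClosedEmbedding.isClosedMap _ hG
  have htop : G' = ⊤ := by
    have h1 : G'.topologicalClosure = ⊤ := by
      refine ContinuousMap.starSubalgebra_topologicalClosure_eq_top_of_separatesPoints _ ?_
      intro φ ψ hne
      refine ⟨g a, ⟨g a, ?_, rfl⟩, ?_⟩
      · exact ⟨a, haG, rfl⟩
      · intro h
        exact hne (hsep φ ψ h)
    have h2 : G'.topologicalClosure ≤ G' :=
      StarSubalgebra.topologicalClosure_minimal le_rfl hG'c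
    rw [h1] at h2
    exact top_le_iff.mp h2
  rw [eq_top_iff]
  intro b _
  have : g b ∈ G' := by rw [htop]; trivial
  obtain ⟨b', hb', hbb⟩ := this
  have : b' = b := g.injective hbb
  rwa [← this]

lemma summable_proj (p : ℕ → B) (hp : ∀ n, IsStarProjection (p n)) :
    Summable (fun n => ((1/3 : ℝ)^n : ℝ) • p n) := by
  refine Summable.of_norm_bounded (g := fun n => (1/3 : ℝ)^n)
    (summable_geometric_of_lt_one (by norm_num) (by norm_num)) ?_
  intro n
  rw [norm_smul, Real.norm_eq_abs, abs_of_nonneg (by positivity)]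
  have := IsStarProjection.norm_le (p n) (hp n)
  have h3 : (0:ℝ) ≤ (1/3 : ℝ)^n := by positivity
  nlinarith

lemma separates_of_proj (p : ℕ → B) (hp : ∀ n, IsStarProjection (p n))
    (hsep : ∀ φ ψ : characterSpace ℂ B, (∀ n, φ (p n) = ψ (p n)) → φ = ψ)
    (φ ψ : characterSpace ℂ B)
    (h : φ (∑' n, ((1/3 : ℝ)^n : ℝ) • p n) = ψ (∑' n, ((1/3 : ℝ)^n : ℝ) • p n)) : φ = ψ := by
  classical
  apply hsep
  have h01 : ∀ (χ : characterSpace ℂ B) n, χ (p n) = 0 ∨ χ (p n) = 1 := by
    intro χ n
    have h1 : χ (p n) * χ (p n) = χ (p n) := by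
      rw [← map_mul, (hp n).isIdempotentElem.eq]
    have h2 : χ (p n) * (χ (p n) - 1) = 0 := by ring_nf; rw [pow_two, h1]; ring
    rcases mul_eq_zero.mp h2 with h | h
    · left; exact h
    · right; exact sub_eq_zero.mp h
  have hval : ∀ (χ : characterSpace ℂ B), χ (∑' n, ((1/3 : ℝ)^n : ℝ) • p n)
      = ((Cardinal.cantorFunction (1/3) (fun n => decide (χ (p n) = 1)) : ℝ) : ℂ) := by
    intro χ
    have h1 : χ (∑' n, ((1/3 : ℝ)^n : ℝ) • p n) = ∑' n, χ (((1/3 : ℝ)^n : ℝ) • p n) :=
      (CharacterSpace.toCLM χ).map_tsum (summable_proj p hp)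
    rw [h1, Cardinal.cantorFunction, Complex.ofReal_tsum]
    congr 1
    ext n
    have h2 : χ (((1/3 : ℝ)^n : ℝ) • p n) = (((1/3 : ℝ)^n : ℝ) : ℂ) * χ (p n) := by
      rw [← Complex.coe_smul, map_smul, smul_eq_mul]
    rw [h2]
    rcases h01 χ n with h | h
    · rw [h, Cardinal.cantorFunctionAux_false]
      · simp
      · simp [h]
    · rw [h, Cardinal.cantorFunctionAux_true]
      · simp
      · simp [h]
  rw [hval, hval] at h
  have h3 := Cardinal.cantorFunction_injective (by norm_num : (0:ℝ) < 1/3) (by norm_num : (1/3:ℝ) < 1/2)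
    (Complex.ofReal_injective h)
  intro n
  have h4 := congrFun h3 n
  simp only [decide_eq_decide] at h4
  rcases h01 φ n with h | h <;> rcases h01 ψ n with h' | h'
  · rw [h, h']
  · exact absurd (h4.mpr h') (by rw [h]; norm_num)
  · exact absurd (h4.mp h) (by rw [h']; norm_num)
  · rw [h, h']

end Comm

section Main
variable {A : Type*} [CStarAlgebra A]

/-- enumerate a countable dense subset -/
lemma exists_seq_dense [TopologicalSpace.SeparableSpace A] (S : Set A) (hS : S.Nonempty) :
    ∃ x : ℕ → A, (∀ n, x n ∈ S) ∧ S ⊆ closure (Set.range x) := by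
  obtain ⟨t, htS, htc, hd⟩ :=
    (TopologicalSpace.IsSeparable.of_separableSpace S).exists_countable_dense_subset
  have hne : t.Nonempty := by
    rcases t.eq_empty_or_nonempty with h | h
    · subst h
      obtain ⟨s, hs⟩ := hS
      have := hd hs
      simp at this
    · exact h
  obtain ⟨x, hx⟩ := htc.exists_eq_range hne
  refine ⟨x, fun n => htS (by rw [hx]; exact ⟨n, rfl⟩), by rw [← hx]; exact hd⟩

lemma exists_gen_comm [TopologicalSpace.SeparableSpace A]
    (D : StarSubalgebra ℂ A) (hDc : IsClosed (D : Set A))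
    (hcomm : ∀ x ∈ D, ∀ y ∈ D, x * y = y * x)
    (hproj : (D : Set A) ⊆ closure (Submodule.span ℂ {p : A | p ∈ D ∧ IsStarProjection p} : Set A)) :
    ∃ a ∈ D, IsSelfAdjoint a ∧ ∀ G : StarSubalgebra ℂ A, IsClosed (G : Set A) → a ∈ G → D ≤ G := by
  classical
  let : CommCStarAlgebra D :=
    { StarSubalgebra.cstarAlgebra D (h_closed := hDc) with
      mul_comm := fun x y => Subtype.ext (hcomm x x.2 y y.2) }
  obtain ⟨x, hxP, hxd⟩ := exists_seq_dense {p : A | p ∈ D ∧ IsStarProjection p}
    ⟨0, D.zero_mem, IsStarProjection.zero A⟩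
  let p : ℕ → D := fun n => ⟨x n, (hxP n).1⟩
  have hp : ∀ n, IsStarProjection (p n) := by
    intro n
    refine ⟨Subtype.ext (hxP n).2.isIdempotentElem, Subtype.ext (hxP n).2.isSelfAdjoint⟩
  have hsep : ∀ φ ψ : characterSpace ℂ D, (∀ n, φ (p n) = ψ (p n)) → φ = ψ := by
    intro φ ψ h
    have hφc : Continuous (fun d : D => φ d) := map_continuous (CharacterSpace.toCLM φ)
    have hψc : Continuous (fun d : D => ψ d) := map_continuous (CharacterSpace.toCLM ψ)
    -- agree on all projections
    have hP : ∀ q : D, IsStarProjection (q : A) → φ q = ψ q := by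
      intro q hq
      have hcl : IsClosed {d : D | φ d = ψ d} := isClosed_eq hφc hψc
      have hqc : q ∈ closure (Set.range p) := by
        rw [closure_subtype]
        have : (Subtype.val '' Set.range p : Set A) = Set.range x := by
          rw [← Set.range_comp]; rfl
        rw [this]
        exact hxd ⟨q.2, hq⟩
      have : closure (Set.range p) ⊆ {d : D | φ d = ψ d} := by
        apply closure_minimal _ hcl
        rintro _ ⟨n, rfl⟩
        exact h n
      exact this hqc
    -- agree on span
    have hspan : ∀ q ∈ Submodule.span ℂ {p : A | p ∈ D ∧ IsStarProjection p},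
        ∀ hq : q ∈ D, φ ⟨q, hq⟩ = ψ ⟨q, hq⟩ := by
      intro q hq
      induction hq using Submodule.span_induction with
      | mem y hy => intro hq; exact hP ⟨y, hq⟩ hy.2
      | zero =>
        intro hq
        have : (⟨0, hq⟩ : D) = 0 := rfl
        rw [this, map_zero, map_zero]
      | add y z hy hz ihy ihz =>
        intro hq
        have hyD : y ∈ D := by
          have : Submodule.span ℂ {p : A | p ∈ D ∧ IsStarProjection p} ≤ D.toSubalgebra.toSubmodule :=
            Submodule.span_le.mpr fun p hp => hp.1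
          exact this hy
        have hzD : z ∈ D := by
          have : Submodule.span ℂ {p : A | p ∈ D ∧ IsStarProjection p} ≤ D.toSubalgebra.toSubmodule :=
            Submodule.span_le.mpr fun p hp => hp.1
          exact this hz
        have : (⟨y + z, hq⟩ : D) = ⟨y, hyD⟩ + ⟨z, hzD⟩ := rfl
        rw [this, map_add, map_add, ihy, ihz]
      | smul c y hy ihy =>
        intro hq
        have hyD : y ∈ D := by
          have : Submodule.span ℂ {p : A | p ∈ D ∧ IsStarProjection p} ≤ D.toSubalgebra.toSubmodule :=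
            Submodule.span_le.mpr fun p hp => hp.1
          exact this hy
        have : (⟨c • y, hq⟩ : D) = c • ⟨y, hyD⟩ := rfl
        rw [this, map_smul, map_smul, ihy]
    have hall : ∀ d : D, φ d = ψ d := by
      intro d
      have hcl : IsClosed {d : D | φ d = ψ d} := isClosed_eq hφc hψc
      have hdc : d ∈ closure (Subtype.val ⁻¹' (Submodule.span ℂ {p : A | p ∈ D ∧ IsStarProjection p} : Set A)) := by
        rw [closure_subtype]
        have hsub : (Submodule.span ℂ {p : A | p ∈ D ∧ IsStarProjection p} : Set A) ⊆ (D : Set A) := by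
          have : Submodule.span ℂ {p : A | p ∈ D ∧ IsStarProjection p} ≤ D.toSubalgebra.toSubmodule :=
            Submodule.span_le.mpr fun p hp => hp.1
          exact this
        have himg : (Subtype.val '' (Subtype.val ⁻¹'
            (Submodule.span ℂ {p : A | p ∈ D ∧ IsStarProjection p} : Set A) : Set D) : Set A)
            = (Submodule.span ℂ {p : A | p ∈ D ∧ IsStarProjection p} : Set A) := by
          ext y
          constructor
          · rintro ⟨z, hz, rfl⟩
            exact hz
          · intro hy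
            exact ⟨⟨y, hsub hy⟩, hy, rfl⟩
        rw [himg]
        exact hproj d.2
      have : closure (Subtype.val ⁻¹' (Submodule.span ℂ {p : A | p ∈ D ∧ IsStarProjection p} : Set A))
          ⊆ {d : D | φ d = ψ d} := by
        apply closure_minimal _ hcl
        intro d hd
        exact hspan d.1 hd d.2
      exact this hdc
    exact Subtype.ext (ContinuousLinearMap.ext hall)
  let a : D := ∑' n, ((1/3 : ℝ)^n : ℝ) • p n
  refine ⟨a, a.2, ?_, ?_⟩
  · have h1 : IsSelfAdjoint a := by
      rw [isSelfAdjoint_iff]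
      have : star a = ∑' n, star (((1/3 : ℝ)^n : ℝ) • p n) := (starL' ℝ).toContinuousLinearMap.map_tsum (summable_proj p hp)
      rw [this]
      congr 1
      ext1 n
      rw [star_smul, (hp n).isSelfAdjoint.star_eq]
      simp
    exact congrArg Subtype.val h1
  · intro G hG haG
    have h := eq_top_of_separates a (fun φ ψ h => separates_of_proj p hp hsep φ ψ h)
      (G.comap D.subtype) (hG.preimage continuous_subtype_val) haG
    intro d hd
    have : (⟨d, hd⟩ : D) ∈ G.comap D.subtype := by rw [h]; trivial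
    exact this

end Main

section Main
variable {A : Type*} [CStarAlgebra A]

/-- the corner of `D` cut by `p` -/
def cornerOf (D : StarSubalgebra ℂ A) (p : A) : Submodule ℂ A where
  carrier := {x | x ∈ D ∧ p * x = x}
  add_mem' := fun {x y} hx hy => ⟨D.add_mem hx.1 hy.1, by rw [mul_add, hx.2, hy.2]⟩
  zero_mem' := ⟨D.zero_mem, mul_zero _⟩
  smul_mem' := fun c x hx => ⟨D.smul_mem hx.1 c, by rw [mul_smul_comm, hx.2]⟩

lemma corner_step (D : StarSubalgebra ℂ A)
    (hcomm : ∀ x ∈ D, ∀ y ∈ D, x * y = y * x)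
    (hproj : (D : Set A) ⊆ closure (Submodule.span ℂ {p : A | p ∈ D ∧ IsStarProjection p} : Set A))
    (p : A) (hpD : p ∈ D) (hp : IsStarProjection p) (hinf : ¬ FiniteDimensional ℂ (cornerOf D p)) :
    ∃ q, q ∈ D ∧ IsStarProjection q ∧ (¬ FiniteDimensional ℂ (cornerOf D q)) ∧ p * q = q ∧ q ≠ p := by
  classical
  -- there is a nontrivial projection below p
  have h1 : ∃ r, r ∈ D ∧ IsStarProjection r ∧ p * r = r ∧ r ≠ 0 ∧ r ≠ p := by
    by_contra hno
    push Not at hno
    apply hinf
    have hle : cornerOf D p ≤ Submodule.span ℂ {p} := by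
      intro x hx
      have hx1 : x ∈ closure (Submodule.span ℂ {p : A | p ∈ D ∧ IsStarProjection p} : Set A) := hproj hx.1
      have hclosed : IsClosed ((Submodule.span ℂ {p} : Submodule ℂ A) : Set A) :=
        Submodule.closed_of_finiteDimensional _
      have hcl : IsClosed {y : A | p * y ∈ Submodule.span ℂ {p}} :=
        hclosed.preimage (continuous_const.mul continuous_id)
      have hsub : (Submodule.span ℂ {p : A | p ∈ D ∧ IsStarProjection p} : Set A)
          ⊆ {y : A | p * y ∈ Submodule.span ℂ {p}} := by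
        intro y hy
        show p * y ∈ (Submodule.span ℂ {p} : Submodule ℂ A)
        induction hy using Submodule.span_induction with
        | mem r hr =>
          have hc : Commute p r := hcomm p hpD r hr.1
          have hpr : IsStarProjection (p * r) := hp.mul hr.2 hc
          by_cases h0 : p * r = 0
          · rw [h0]; exact Submodule.zero_mem _
          · have := hno (p * r) (D.mul_mem hpD hr.1) hpr
              (by rw [← mul_assoc, hp.isIdempotentElem.eq]) h0
            rw [this]; exact Submodule.mem_span_singleton_self p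
        | zero => rw [mul_zero]; exact Submodule.zero_mem _
        | add y z _ _ ihy ihz =>
          rw [mul_add]; exact Submodule.add_mem _ ihy ihz
        | smul c y _ ihy =>
          rw [mul_smul_comm]; exact Submodule.smul_mem _ _ ihy
      have := closure_minimal hsub hcl hx1
      have h2 : p * x ∈ Submodule.span ℂ {p} := this
      rwa [hx.2] at h2
    exact Submodule.finiteDimensional_of_le hle
  obtain ⟨r, hrD, hr, hpr, hr0, hrp⟩ := h1
  have hrp' : r * p = r := by rw [← hcomm p hpD r hrD]; exact hpr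
  have hsub : IsStarProjection (p - r) := IsStarProjection.sub_of_mul_eq_left hr hp hrp'
  by_cases hfr : FiniteDimensional ℂ (cornerOf D r)
  · refine ⟨p - r, D.sub_mem hpD hrD, hsub, ?_, ?_, ?_⟩
    · intro hfpr
      apply hinf
      have hle : cornerOf D p ≤ cornerOf D r ⊔ cornerOf D (p - r) := by
        intro x hx
        have hx' : x = r * x + (p - r) * x := by rw [← add_mul]; simp [hx.2]
        rw [hx']
        apply Submodule.add_mem_sup
        · exact ⟨D.mul_mem hrD hx.1, by rw [← mul_assoc, hr.isIdempotentElem.eq]⟩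
        · exact ⟨D.mul_mem (D.sub_mem hpD hrD) hx.1, by rw [← mul_assoc, hsub.isIdempotentElem.eq]⟩
      exact Submodule.finiteDimensional_of_le hle
    · rw [mul_sub, hp.isIdempotentElem.eq, hpr]
    · intro h
      apply hr0
      have : p - r = p := h
      simpa using this
  · exact ⟨r, hrD, hr, hfr, hpr, hrp⟩

lemma exists_orthogonal_seq (D : StarSubalgebra ℂ A)
    (hcomm : ∀ x ∈ D, ∀ y ∈ D, x * y = y * x)
    (hproj : (D : Set A) ⊆ closure (Submodule.span ℂ {p : A | p ∈ D ∧ IsStarProjection p} : Set A))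
    (hinf : ¬ FiniteDimensional ℂ D) :
    ∃ e : ℕ → A, (∀ n, e n ∈ D) ∧ (∀ n, IsStarProjection (e n)) ∧ (∀ n, e n ≠ 0) ∧
      ∀ m n, m ≠ n → e m * e n = 0 := by
  classical
  let Q : A → Prop := fun p => p ∈ D ∧ IsStarProjection p ∧ ¬ FiniteDimensional ℂ (cornerOf D p)
  have hstep : ∀ p : {p // Q p}, ∃ q : {p // Q p}, p.1 * q.1 = q.1 ∧ q.1 ≠ p.1 := by
    intro p
    obtain ⟨q, h1, h2, h3, h4, h5⟩ := corner_step D hcomm hproj p.1 p.2.1 p.2.2.1 p.2.2.2
    exact ⟨⟨q, h1, h2, h3⟩, h4, h5⟩
  choose nxt hn1 hn2 using hstep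
  have hQ1 : Q 1 := by
    refine ⟨D.one_mem, IsStarProjection.one A, ?_⟩
    intro hfd
    apply hinf
    have : cornerOf D 1 = D.toSubalgebra.toSubmodule := by
      ext x
      constructor
      · intro hx; exact hx.1
      · intro hx; exact ⟨hx, one_mul _⟩
    rw [this] at hfd
    exact hfd
  let s : ℕ → {p // Q p} := fun n => Nat.rec ⟨1, hQ1⟩ (fun _ p => nxt p) n
  have hs : ∀ n, s (n+1) = nxt (s n) := fun n => rfl
  have hle : ∀ m k, (s m).1 * (s (m + k)).1 = (s (m+k)).1 := by
    intro m k
    induction k with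
    | zero => exact (s m).2.2.1.isIdempotentElem
    | succ k ih =>
      have h1 : (s (m + k)).1 * (s (m + (k+1))).1 = (s (m + (k+1))).1 := by
        have := hn1 (s (m+k))
        rw [← add_assoc, hs]
        exact this
      calc (s m).1 * (s (m + (k+1))).1 = (s m).1 * ((s (m + k)).1 * (s (m + (k+1))).1) := by rw [h1]
        _ = ((s m).1 * (s (m + k)).1) * (s (m + (k+1))).1 := by rw [mul_assoc]
        _ = (s (m + k)).1 * (s (m + (k+1))).1 := by rw [ih]
        _ = _ := h1
  have hle' : ∀ m n, m ≤ n → (s m).1 * (s n).1 = (s n).1 := by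
    intro m n h
    obtain ⟨k, rfl⟩ := Nat.exists_eq_add_of_le h
    exact hle m k
  have horth : ∀ m n, m < n → ((s m).1 - (s (m+1)).1) * ((s n).1 - (s (n+1)).1) = 0 := by
    intro m n h
    rw [sub_mul, mul_sub, mul_sub, hle' m n h.le, hle' m (n+1) (by omega), hle' (m+1) n h,
      hle' (m+1) (n+1) (by omega)]
    simp
  refine ⟨fun n => (s n).1 - (s (n+1)).1, fun n => D.sub_mem (s n).2.1 (s (n+1)).2.1, ?_, ?_, ?_⟩
  · intro n
    refine IsStarProjection.sub_of_mul_eq_left (s (n+1)).2.2.1 (s n).2.2.1 ?_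
    rw [hcomm _ (s (n+1)).2.1 _ (s n).2.1]
    exact hle' n (n+1) (by omega)
  · intro n h
    have : (s n).1 = (s (n+1)).1 := sub_eq_zero.mp h
    exact hn2 (s n) this.symm
  · intro m n hmn
    rcases lt_or_gt_of_ne hmn with h | h
    · exact horth m n h
    · rw [hcomm _ (D.sub_mem (s m).2.1 (s (m+1)).2.1) _ (D.sub_mem (s n).2.1 (s (n+1)).2.1)]
      exact horth n m h

end Main

section CommPart

lemma partition_comm {B : Type*} [CommRing B] [StarRing B] (q : ℕ → B)
    (hq : ∀ i, IsStarProjection (q i)) :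
    ∃ e : ℕ → B, (∀ i, IsStarProjection (e i)) ∧ (∀ i j, i ≠ j → e i * e j = 0) ∧
      (∀ i, e i * q i = e i) ∧
      ∀ n, IsStarProjection (1 - ∑ j ∈ Finset.range n, e j) ∧
        ∀ i < n, (1 - ∑ j ∈ Finset.range n, e j) * q i = 0 := by
  let E : ℕ → B := fun n => Nat.rec 0 (fun n En => En + q n * (1 - En)) n
  have hE : ∀ n, E (n+1) = E n + q n * (1 - E n) := fun n => rfl
  have hE0 : E 0 = 0 := rfl
  have hqi : ∀ i, q i * q i = q i := fun i => (hq i).isIdempotentElem
  have hEp : ∀ n, IsStarProjection (E n) := by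
    intro n
    induction n with
    | zero => exact IsStarProjection.zero B
    | succ n ih =>
      rw [hE]
      have hEi : E n * E n = E n := ih.isIdempotentElem
      refine IsStarProjection.add ih ((hq n).mul ih.one_sub (Commute.all _ _)) ?_
      linear_combination (-q n) * hEi
  have hEi : ∀ n, E n * E n = E n := fun n => (hEp n).isIdempotentElem
  have hsum : ∀ n, ∑ j ∈ Finset.range n, q j * (1 - E j) = E n := by
    intro n
    induction n with
    | zero => simp [hE0]
    | succ n ih => rw [Finset.sum_range_succ, ih, hE]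
  have hmono : ∀ m k, E m * E (m + k) = E m := by
    intro m k
    induction k with
    | zero => exact hEi m
    | succ k ih =>
      rw [← add_assoc, hE]
      linear_combination (1 - q (m+k)) * ih
  have horth : ∀ m n, m < n → (q m * (1 - E m)) * (q n * (1 - E n)) = 0 := by
    intro m n h
    obtain ⟨k, rfl⟩ := Nat.exists_eq_add_of_le h
    have h1 := hmono (m+1) k
    have h2 : (q m * (1 - E m)) * E (m+1) = q m * (1 - E m) := by
      rw [hE]
      linear_combination (q m * q m - q m) * hEi m + (1 - E m) * hqi m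
    have h3 : (q m * (1 - E m)) * E (m.succ + k) = q m * (1 - E m) := by
      calc (q m * (1 - E m)) * E (m.succ + k)
          = ((q m * (1 - E m)) * E (m+1)) * E (m + 1 + k) := by rw [h2]
        _ = (q m * (1 - E m)) * (E (m+1) * E (m + 1 + k)) := by ring
        _ = _ := by rw [h1, h2]
    linear_combination (-q (m.succ + k)) * h3
  refine ⟨fun n => q n * (1 - E n), ?_, ?_, ?_, ?_⟩
  · intro n
    exact (hq n).mul (hEp n).one_sub (Commute.all _ _)
  · intro i j hij
    rcases lt_or_gt_of_ne hij with h | h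
    · exact horth i j h
    · show q i * (1 - E i) * (q j * (1 - E j)) = 0
      rw [mul_comm]; exact horth j i h
  · intro i
    show q i * (1 - E i) * q i = q i * (1 - E i)
    linear_combination (1 - E i) * hqi i
  · intro n
    rw [hsum]
    refine ⟨(hEp n).one_sub, ?_⟩
    intro i hi
    obtain ⟨k, rfl⟩ := Nat.exists_eq_add_of_le hi
    have h1 := hmono (i+1) k
    have h2 : q i * E (i+1) = q i := by
      rw [hE]
      linear_combination (1 - E i) * hqi i
    have h3 : q i * E (i.succ + k) = q i := by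
      calc q i * E (i.succ + k) = (q i * E (i+1)) * E (i + 1 + k) := by rw [h2]
        _ = q i * (E (i+1) * E (i + 1 + k)) := by ring
        _ = _ := by rw [h1, h2]
    linear_combination (-1 : B) * h3

end CommPart

section Norm
variable {A : Type*} [CStarAlgebra A]

/-- partial isometries normalizing `D` -/
def normalizers (D : StarSubalgebra ℂ A) : Set A :=
  {s | s * star s * s = s ∧ (∀ d ∈ D, s * d * star s ∈ D) ∧ (∀ d ∈ D, star s * d * s ∈ D)}

variable {D : StarSubalgebra ℂ A}

lemma N_star {s : A} (hs : s ∈ normalizers D) : star s ∈ normalizers D := by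
  refine ⟨?_, ?_, ?_⟩
  · have := congrArg star hs.1
    simpa [star_mul, mul_assoc] using this
  · intro d hd; rw [star_star]; exact hs.2.2 d hd
  · intro d hd; rw [star_star]; exact hs.2.1 d hd

lemma N_one : (1 : A) ∈ normalizers D := by
  refine ⟨by simp, ?_, ?_⟩ <;> intro d hd <;> simpa using hd

lemma N_zero : (0 : A) ∈ normalizers D := by
  refine ⟨by simp, ?_, ?_⟩ <;> intro d hd <;> simp

lemma N_proj {p : A} (hpD : p ∈ D) (hp : IsStarProjection p) : p ∈ normalizers D := by
  have h1 : star p = p := hp.isSelfAdjoint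
  have h2 : p * p = p := hp.isIdempotentElem
  refine ⟨by rw [h1, h2, h2], ?_, ?_⟩ <;> intro d hd <;> rw [h1] <;>
    exact D.mul_mem (D.mul_mem hpD hd) hpD

lemma N_ss {s : A} (hs : s ∈ normalizers D) : star s * s ∈ D := by
  simpa using hs.2.2 1 D.one_mem

lemma N_ss' {s : A} (hs : s ∈ normalizers D) : s * star s ∈ D := by
  simpa using hs.2.1 1 D.one_mem

lemma N_mul (hcomm : ∀ x ∈ D, ∀ y ∈ D, x * y = y * x) {s t : A}
    (hs : s ∈ normalizers D) (ht : t ∈ normalizers D) : s * t ∈ normalizers D := by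
  refine ⟨?_, ?_, ?_⟩
  · have h := hcomm _ (N_ss' ht) _ (N_ss hs)
    calc s * t * star (s * t) * (s * t) = s * ((t * star t) * (star s * s)) * t := by
          rw [star_mul]; noncomm_ring
      _ = s * ((star s * s) * (t * star t)) * t := by rw [h]
      _ = (s * star s * s) * (t * star t * t) := by noncomm_ring
      _ = s * t := by rw [hs.1, ht.1]
  · intro d hd
    have : s * t * d * star (s * t) = s * (t * d * star t) * star s := by
      rw [star_mul]; noncomm_ring
    rw [this]
    exact hs.2.1 _ (ht.2.1 d hd)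
  · intro d hd
    have : star (s * t) * d * (s * t) = star t * (star s * d * s) * t := by
      rw [star_mul]; noncomm_ring
    rw [this]
    exact ht.2.2 _ (hs.2.2 d hd)

/-- products of a normalizer and an element of the relative commutant -/
def MSet (D : StarSubalgebra ℂ A) : Set A :=
  {x | ∃ s ∈ normalizers D, ∃ c ∈ Set.centralizer (D : Set A), x = s * c}

lemma M_of_N {s : A} (hs : s ∈ normalizers D) : s ∈ MSet D :=
  ⟨s, hs, 1, fun m _ => by simp, by simp⟩

lemma M_of_C {c : A} (hc : c ∈ Set.centralizer (D : Set A)) : c ∈ MSet D :=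
  ⟨1, N_one, c, hc, by simp⟩

lemma conj_C (hcomm : ∀ x ∈ D, ∀ y ∈ D, x * y = y * x) {s c : A} (hs : s ∈ normalizers D)
    (hc : c ∈ Set.centralizer (D : Set A)) :
    star s * c * s ∈ Set.centralizer (D : Set A) := by
  intro d hd
  have hsd := hs.2.1 d hd
  have h1 := hcomm _ (N_ss hs) _ hd
  have h2 := hc _ hsd
  calc d * (star s * c * s) = d * (star s * s * star s) * c * s := by
        have : star s * s * star s = star s := by
          have := congrArg star hs.1
          simpa [star_mul, mul_assoc] using this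
        rw [this]; noncomm_ring
    _ = (d * (star s * s)) * star s * c * s := by noncomm_ring
    _ = ((star s * s) * d) * star s * c * s := by rw [h1]
    _ = star s * ((s * d * star s) * c) * s := by noncomm_ring
    _ = star s * (c * (s * d * star s)) * s := by rw [h2]
    _ = star s * c * s * (d * (star s * s)) := by noncomm_ring
    _ = star s * c * s * ((star s * s) * d) := by rw [h1]
    _ = star s * c * (s * star s * s) * d := by noncomm_ring
    _ = star s * c * s * d := by rw [hs.1]

lemma cs_eq {s c : A} (hs : s ∈ normalizers D) (hc : c ∈ Set.centralizer (D : Set A)) :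
    c * s = s * (star s * c * s) := by
  have h := hc _ (N_ss' hs)
  calc c * s = c * (s * star s * s) := by rw [hs.1]
    _ = (c * (s * star s)) * s := by noncomm_ring
    _ = ((s * star s) * c) * s := by rw [h]
    _ = s * (star s * c * s) := by noncomm_ring

lemma C_mul {c c' : A} (hc : c ∈ Set.centralizer (D : Set A))
    (hc' : c' ∈ Set.centralizer (D : Set A)) : c * c' ∈ Set.centralizer (D : Set A) :=
  Set.mul_mem_centralizer hc hc'

lemma C_star {c : A} (hc : c ∈ Set.centralizer (D : Set A)) :
    star c ∈ Set.centralizer (D : Set A) := by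
  intro d hd
  have := hc (star d) (star_mem hd)
  have := congrArg star this
  simpa [star_mul] using this.symm

lemma M_mul (hcomm : ∀ x ∈ D, ∀ y ∈ D, x * y = y * x) {x y : A}
    (hx : x ∈ MSet D) (hy : y ∈ MSet D) : x * y ∈ MSet D := by
  obtain ⟨s, hs, c, hc, rfl⟩ := hx
  obtain ⟨t, ht, c', hc', rfl⟩ := hy
  refine ⟨s * t, N_mul hcomm hs ht, (star t * c * t) * c', C_mul (conj_C hcomm ht hc) hc', ?_⟩
  calc s * c * (t * c') = s * (c * t) * c' := by noncomm_ring
    _ = s * (t * (star t * c * t)) * c' := by rw [cs_eq ht hc]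
    _ = _ := by noncomm_ring

lemma M_star (hcomm : ∀ x ∈ D, ∀ y ∈ D, x * y = y * x) {x : A}
    (hx : x ∈ MSet D) : star x ∈ MSet D := by
  obtain ⟨s, hs, c, hc, rfl⟩ := hx
  rw [star_mul]
  exact M_mul hcomm (M_of_C (C_star hc)) (M_of_N (N_star hs))

/-- elements of `MSet D` intertwine `D` -/
lemma M_intertwine (hcomm : ∀ x ∈ D, ∀ y ∈ D, x * y = y * x) {x : A} (hx : x ∈ MSet D)
    {z : A} (hz : z ∈ D) : ∃ z' ∈ D, z' * x = x * z := by
  obtain ⟨s, hs, c, hc, rfl⟩ := hx
  refine ⟨s * z * star s, hs.2.1 z hz, ?_⟩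
  have h1 := hcomm _ (N_ss hs) _ hz
  calc s * z * star s * (s * c) = s * (z * (star s * s)) * c := by noncomm_ring
    _ = s * ((star s * s) * z) * c := by rw [h1]
    _ = (s * star s * s) * (z * c) := by noncomm_ring
    _ = s * (c * z) := by rw [hs.1, hc z hz]
    _ = s * c * z := by noncomm_ring

lemma M_one : (1 : A) ∈ MSet D := M_of_N N_one

lemma M_of_D (hcomm : ∀ x ∈ D, ∀ y ∈ D, x * y = y * x) {d : A} (hd : d ∈ D) : d ∈ MSet D :=
  M_of_C (fun m hm => hcomm m hm d hd)

lemma span_M_dense (hcomm : ∀ x ∈ D, ∀ y ∈ D, x * y = y * x)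
    (hgen : (StarAlgebra.adjoin ℂ
      (Set.centralizer (D : Set A) ∪ normalizers D)).topologicalClosure = ⊤) (a : A) :
    a ∈ closure (Submodule.span ℂ (MSet D) : Set A) := by
  have h1 : StarAlgebra.adjoin ℂ (Set.centralizer (D : Set A) ∪ normalizers D) ≤
      { (Submodule.span ℂ (MSet D)) with
        mul_mem' := by
          intro x y hx hy
          induction hx using Submodule.span_induction with
          | mem x hx =>
            induction hy using Submodule.span_induction with
            | mem y hy => exact Submodule.subset_span (M_mul hcomm hx hy)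
            | zero => rw [mul_zero]; exact Submodule.zero_mem _
            | add y z _ _ ihy ihz => rw [mul_add]; exact Submodule.add_mem _ ihy ihz
            | smul c y _ ihy => rw [mul_smul_comm]; exact Submodule.smul_mem _ _ ihy
          | zero => rw [zero_mul]; exact Submodule.zero_mem _
          | add x z _ _ ihx ihz => rw [add_mul]; exact Submodule.add_mem _ ihx ihz
          | smul c x _ ihx => rw [smul_mul_assoc]; exact Submodule.smul_mem _ _ ihx
        one_mem' := Submodule.subset_span M_one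
        algebraMap_mem' := fun r => by
          rw [Algebra.algebraMap_eq_smul_one]
          exact Submodule.smul_mem _ _ (Submodule.subset_span M_one)
        star_mem' := by
          intro x hx
          induction hx using Submodule.span_induction with
          | mem x hx => exact Submodule.subset_span (M_star hcomm hx)
          | zero => rw [star_zero]; exact Submodule.zero_mem _
          | add x z _ _ ihx ihz => rw [star_add]; exact Submodule.add_mem _ ihx ihz
          | smul c x _ ihx => rw [star_smul]; exact Submodule.smul_mem _ _ ihx :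
        StarSubalgebra ℂ A } := by
    apply StarAlgebra.adjoin_le
    rintro x (hx | hx)
    · exact Submodule.subset_span (M_of_C hx)
    · exact Submodule.subset_span (M_of_N hx)
  have h2 : a ∈ (StarAlgebra.adjoin ℂ
      (Set.centralizer (D : Set A) ∪ normalizers D)).topologicalClosure := by rw [hgen]; trivial
  exact closure_mono h1 h2


/-- The closed two-sided ideal generated by `v`. -/
lemma one_mem_ideal (hcomm : ∀ x ∈ D, ∀ y ∈ D, x * y = y * x)
    (hgen : (StarAlgebra.adjoin ℂ
      (Set.centralizer (D : Set A) ∪ normalizers D)).topologicalClosure = ⊤)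
    (hsimple : ∀ I : TwoSidedIdeal A, IsClosed (I : Set A) → I = ⊥ ∨ I = ⊤)
    {v : A} (hv0 : v ≠ 0) :
    (1 : A) ∈ closure (Submodule.span ℂ {y : A | ∃ x ∈ MSet D, ∃ b : A, y = x * v * b} : Set A) := by
  set J : Submodule ℂ A := Submodule.span ℂ {y : A | ∃ x ∈ MSet D, ∃ b : A, y = x * v * b} with hJ
  have hleft : ∀ a y : A, y ∈ closure (J : Set A) → a * y ∈ closure (J : Set A) := by
    intro a y hy
    -- first for y ∈ J
    have h1 : ∀ y ∈ J, a * y ∈ closure (J : Set A) := by
      intro y hy
      have hcl : IsClosed {a : A | a * y ∈ closure (J : Set A)} :=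
        isClosed_closure.preimage (continuous_id.mul continuous_const)
      have hsub : (Submodule.span ℂ (MSet D) : Set A) ⊆ {a : A | a * y ∈ closure (J : Set A)} := by
        intro a ha
        clear hcl
        show a * y ∈ closure (J : Set A)
        apply subset_closure
        show a * y ∈ J
        induction ha using Submodule.span_induction with
        | mem m hm =>
          induction hy using Submodule.span_induction with
          | mem y hy =>
            obtain ⟨x, hx, b, rfl⟩ := hy
            apply Submodule.subset_span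
            exact ⟨m * x, M_mul hcomm hm hx, b, by noncomm_ring⟩
          | zero => rw [mul_zero]; exact Submodule.zero_mem _
          | add y z _ _ ihy ihz => rw [mul_add]; exact Submodule.add_mem _ ihy ihz
          | smul c y _ ihy => rw [mul_smul_comm]; exact Submodule.smul_mem _ _ ihy
        | zero => rw [zero_mul]; exact Submodule.zero_mem _
        | add x z _ _ ihx ihz => rw [add_mul]; exact Submodule.add_mem _ ihx ihz
        | smul c x _ ihx => rw [smul_mul_assoc]; exact Submodule.smul_mem _ _ ihx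
      exact closure_minimal hsub hcl (span_M_dense hcomm hgen a)
    have hcl : IsClosed {y : A | a * y ∈ closure (J : Set A)} :=
      isClosed_closure.preimage (continuous_const.mul continuous_id)
    exact closure_minimal (fun y hy => h1 y hy) hcl hy
  have hright : ∀ y b : A, y ∈ closure (J : Set A) → y * b ∈ closure (J : Set A) := by
    intro y b hy
    have h1 : ∀ y ∈ J, y * b ∈ closure (J : Set A) := by
      intro y hy
      apply subset_closure
      show y * b ∈ J
      induction hy using Submodule.span_induction with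
      | mem y hy =>
        obtain ⟨x, hx, c, rfl⟩ := hy
        apply Submodule.subset_span
        exact ⟨x, hx, c * b, by noncomm_ring⟩
      | zero => rw [zero_mul]; exact Submodule.zero_mem _
      | add y z _ _ ihy ihz => rw [add_mul]; exact Submodule.add_mem _ ihy ihz
      | smul c y _ ihy => rw [smul_mul_assoc]; exact Submodule.smul_mem _ _ ihy
    have hcl : IsClosed {y : A | y * b ∈ closure (J : Set A)} :=
      isClosed_closure.preimage (continuous_id.mul continuous_const)
    exact closure_minimal (fun y hy => h1 y hy) hcl hy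
  let I : TwoSidedIdeal A := TwoSidedIdeal.mk' (J.topologicalClosure : Set A)
    (Submodule.zero_mem _) (fun hx hy => Submodule.add_mem _ hx hy)
    (fun hx => Submodule.neg_mem _ hx) (fun {x y} hy => hleft x y hy) (fun {x y} hx => hright x y hx)
  have hIc : (I : Set A) = closure (J : Set A) := TwoSidedIdeal.coe_mk' _ _ _ _ _ _
  rcases hsimple I (by rw [hIc]; exact isClosed_closure) with h | h
  · exfalso
    apply hv0
    have : v ∈ I := by
      rw [← SetLike.mem_coe, hIc]
      apply subset_closure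
      exact Submodule.subset_span ⟨1, M_one, 1, by simp⟩
    rw [h] at this
    simpa using this
  · rw [← hIc, h]
    trivial

/-- supports -/
lemma exists_list (hcomm : ∀ x ∈ D, ∀ y ∈ D, x * y = y * x)
    {v : A} (hvD : v ∈ D) (hv : IsStarProjection v) {y : A}
    (hy : y ∈ Submodule.span ℂ {y : A | ∃ x ∈ MSet D, ∃ b : A, y = x * v * b}) :
    ∃ l : List A, (∀ s ∈ l, s ∈ normalizers D) ∧
      ∀ p : A, (∀ s ∈ l, p * (s * v * star s) = 0) → p * y = 0 := by
  induction hy using Submodule.span_induction with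
  | mem y hy =>
    obtain ⟨x, ⟨s, hs, c, hc, rfl⟩, b, rfl⟩ := hy
    refine ⟨[s], by simpa using hs, ?_⟩
    intro p hp
    have hp1 := hp s (by simp)
    have h1 := hcomm _ (N_ss hs) _ hvD
    calc p * (s * c * v * b) = p * (s * (c * v)) * b := by noncomm_ring
      _ = p * (s * (v * c)) * b := by rw [hc v hvD]
      _ = p * ((s * star s * s) * (v * v) * c) * b := by
          rw [hs.1, hv.isIdempotentElem.eq]; noncomm_ring
      _ = p * (s * ((star s * s) * v) * v * c) * b := by noncomm_ring
      _ = p * (s * (v * (star s * s)) * v * c) * b := by rw [h1]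
      _ = (p * (s * v * star s)) * s * v * c * b := by noncomm_ring
      _ = 0 := by rw [hp1]; simp
  | zero => exact ⟨[], by simp, fun p _ => mul_zero p⟩
  | add y z _ _ ihy ihz =>
    obtain ⟨l1, h1, h1'⟩ := ihy
    obtain ⟨l2, h2, h2'⟩ := ihz
    refine ⟨l1 ++ l2, ?_, ?_⟩
    · intro s hs
      rcases List.mem_append.mp hs with h | h
      · exact h1 s h
      · exact h2 s h
    · intro p hp
      rw [mul_add, h1' p (fun s hs => hp s (List.mem_append.mpr (Or.inl hs))),
        h2' p (fun s hs => hp s (List.mem_append.mpr (Or.inr hs))), add_zero]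
  | smul c y _ ihy =>
    obtain ⟨l1, h1, h1'⟩ := ihy
    refine ⟨l1, h1, ?_⟩
    intro p hp
    rw [mul_smul_comm, h1' p hp, smul_zero]

lemma norm_one_le_of_proj {p : A} (hp : IsStarProjection p) (hp0 : p ≠ 0) : 1 ≤ ‖p‖ := by
  have h1 : ‖p‖ * ‖p‖ = ‖p‖ := by
    have := CStarRing.norm_star_mul_self (x := p)
    rw [hp.isSelfAdjoint.star_eq, hp.isIdempotentElem.eq] at this
    exact this.symm
  have h2 : 0 < ‖p‖ := norm_pos_iff.mpr hp0
  nlinarith

/-- every nonzero projection of `D` can be moved so as to cover `1`. -/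
lemma exists_cover (hcomm : ∀ x ∈ D, ∀ y ∈ D, x * y = y * x)
    (hgen : (StarAlgebra.adjoin ℂ
      (Set.centralizer (D : Set A) ∪ normalizers D)).topologicalClosure = ⊤)
    (hsimple : ∀ I : TwoSidedIdeal A, IsClosed (I : Set A) → I = ⊥ ∨ I = ⊤)
    {v : A} (hvD : v ∈ D) (hv : IsStarProjection v) (hv0 : v ≠ 0) :
    ∃ (n : ℕ) (e t : ℕ → A), (∀ i, e i ∈ D) ∧ (∀ i, IsStarProjection (e i)) ∧
      (∀ i j, i ≠ j → e i * e j = 0) ∧ (∑ i ∈ Finset.range n, e i = 1) ∧
      (∀ i, t i ∈ normalizers D) ∧ ∀ i, e i * (star (t i) * v * t i) = e i := by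
  classical
  have h1 := one_mem_ideal hcomm hgen hsimple hv0
  obtain ⟨y, hyJ, hy⟩ := Metric.mem_closure_iff.mp h1 1 one_pos
  obtain ⟨l, hlN, hl⟩ := exists_list hcomm hvD hv hyJ
  let s : ℕ → A := fun i => l.getD i 0
  have hsN : ∀ i, s i ∈ normalizers D := by
    intro i
    by_cases hi : i < l.length
    · have : s i = l[i] := by simp [s, hi]
      rw [this]; exact hlN _ (List.getElem_mem hi)
    · have : s i = 0 := by simp [s, not_lt.mp hi]
      rw [this]; exact N_zero
  have hqD : ∀ i, s i * v * star (s i) ∈ D := fun i => (hsN i).2.1 v hvD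
  have hqp : ∀ i, IsStarProjection (s i * v * star (s i)) := by
    intro i
    have h1 := hcomm _ (N_ss (hsN i)) _ hvD
    refine ⟨?_, ?_⟩
    · show (s i * v * star (s i)) * (s i * v * star (s i)) = s i * v * star (s i)
      calc (s i * v * star (s i)) * (s i * v * star (s i))
          = s i * (v * ((star (s i) * s i) * v)) * star (s i) := by noncomm_ring
        _ = s i * (v * (v * (star (s i) * s i))) * star (s i) := by rw [h1]
        _ = s i * (v * v) * (star (s i) * s i * star (s i)) := by noncomm_ring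
        _ = s i * v * star (s i) := by
            have h2 : star (s i) * s i * star (s i) = star (s i) := by
              have := congrArg star (hsN i).1
              simpa [star_mul, mul_assoc] using this
            rw [hv.isIdempotentElem.eq, h2]
    · rw [isSelfAdjoint_iff, star_mul, star_mul, star_star, hv.isSelfAdjoint.star_eq]
      noncomm_ring
  let : CommRing D :=
    { (inferInstance : Ring D) with mul_comm := fun x y => Subtype.ext (hcomm x x.2 y y.2) }
  obtain ⟨e, he1, he2, he3, he4⟩ := partition_comm (B := D)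
    (fun i => ⟨s i * v * star (s i), hqD i⟩)
    (fun i => ⟨Subtype.ext (hqp i).isIdempotentElem, Subtype.ext (hqp i).isSelfAdjoint⟩)
  obtain ⟨hP, hPq⟩ := he4 l.length
  have hPA : IsStarProjection ((1 : A) - ∑ j ∈ Finset.range l.length, (e j : A)) := by
    have := hP.map D.subtype
    simpa using this
  refine ⟨l.length, fun i => (e i : A), fun i => star (s i), fun i => (e i).2, ?_, ?_, ?_, ?_, ?_⟩
  · intro i
    exact (he1 i).map D.subtype
  · intro i j hij
    exact congrArg Subtype.val (he2 i j hij)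
  · by_contra hne
    have hne' : (1 : A) - ∑ j ∈ Finset.range l.length, (e j : A) ≠ 0 := by
      intro h
      exact hne (sub_eq_zero.mp h).symm
    set P := (1 : A) - ∑ j ∈ Finset.range l.length, (e j : A) with hPdef
    have hPy : P * y = 0 := by
      apply hl
      intro s' hs'
      obtain ⟨i, hi, rfl⟩ := List.getElem_of_mem hs'
      have h := congrArg Subtype.val (hPq i hi)
      have hsi : s i = l[i] := by simp [s, hi]
      rw [← hsi]
      simpa [hPdef] using h
    have h2 : P = P * (1 - y) := by rw [mul_sub, hPy, mul_one, sub_zero]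
    have h3 : ‖P‖ ≤ ‖P‖ * ‖1 - y‖ := by
      calc ‖P‖ = ‖P * (1 - y)‖ := by rw [← h2]
        _ ≤ _ := norm_mul_le _ _
    have h4 := norm_one_le_of_proj hPA hne'
    rw [dist_eq_norm] at hy
    nlinarith [norm_nonneg P]
  · intro i; exact N_star (hsN i)
  · intro i
    rw [star_star]
    exact congrArg Subtype.val (he3 i)


/-- data of a cover of `1` by moved copies of `v` -/
structure Cover (D : StarSubalgebra ℂ A) (v : A) where
  n : ℕ
  e : ℕ → A
  t : ℕ → A
  eD : ∀ i, e i ∈ D
  ep : ∀ i, IsStarProjection (e i)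
  orth : ∀ i j, i ≠ j → e i * e j = 0
  sum : ∑ i ∈ Finset.range n, e i = 1
  tN : ∀ i, t i ∈ normalizers D
  le : ∀ i, e i * (star (t i) * v * t i) = e i

/-- the column operator of a cover, restricted to the projection `E` -/
def Cover.op {v : A} (C : Cover D v) (E : A) : A :=
  ∑ i ∈ Finset.range C.n, v * C.t i * C.e i * E

lemma Cover.op_mul {v : A} (C : Cover D v) (hcomm : ∀ x ∈ D, ∀ y ∈ D, x * y = y * x)
    {E : A} (hED : E ∈ D) {j : ℕ} (hj : j < C.n) :
    C.op E * C.e j = v * C.t j * C.e j * E := by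
  rw [Cover.op, Finset.sum_mul, Finset.sum_eq_single_of_mem j (Finset.mem_range.mpr hj)]
  · have h := hcomm _ hED _ (C.eD j)
    calc v * C.t j * C.e j * E * C.e j = v * C.t j * C.e j * (E * C.e j) := by noncomm_ring
      _ = v * C.t j * (C.e j * C.e j) * E := by rw [h]; noncomm_ring
      _ = _ := by rw [(C.ep j).isIdempotentElem.eq]
  · intro i _ hij
    have h := hcomm _ hED _ (C.eD j)
    calc v * C.t i * C.e i * E * C.e j = v * C.t i * C.e i * (E * C.e j) := by noncomm_ring
      _ = v * C.t i * (C.e i * C.e j) * E := by rw [h]; noncomm_ring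
      _ = 0 := by rw [C.orth i j hij]; simp

lemma Cover.star_mul_self {v : A} (C : Cover D v) (hcomm : ∀ x ∈ D, ∀ y ∈ D, x * y = y * x)
    (hv : IsStarProjection v) {E : A} (hED : E ∈ D) (hE : IsStarProjection E) (j : ℕ) :
    star (v * C.t j * C.e j * E) * (v * C.t j * C.e j * E) = C.e j * E := by
  have h := hcomm _ hED _ (C.eD j)
  calc star (v * C.t j * C.e j * E) * (v * C.t j * C.e j * E)
      = E * C.e j * star (C.t j) * (v * v) * C.t j * C.e j * E := by
        rw [star_mul, star_mul, star_mul, hv.isSelfAdjoint.star_eq, hE.isSelfAdjoint.star_eq,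
          (C.ep j).isSelfAdjoint.star_eq]; noncomm_ring
    _ = E * (C.e j * (star (C.t j) * v * C.t j)) * C.e j * E := by
        rw [hv.isIdempotentElem.eq]; noncomm_ring
    _ = (E * C.e j) * C.e j * E := by rw [C.le j]
    _ = (C.e j * E) * C.e j * E := by rw [h]
    _ = C.e j * (E * C.e j) * E := by noncomm_ring
    _ = C.e j * (C.e j * E) * E := by rw [h]
    _ = (C.e j * C.e j) * (E * E) := by noncomm_ring
    _ = _ := by rw [(C.ep j).isIdempotentElem.eq, hE.isIdempotentElem.eq]

/-- linked projections -/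
def Lk (D G : StarSubalgebra ℂ A) (o E : A) : Prop :=
  ∃ (ι : Type) (_ : Fintype ι) (g y : ι → A), (∀ i, g i ∈ G ∧ y i ∈ MSet D ∧ g i = o * y i) ∧
    ∑ i, star (g i) * g i = E

lemma Lk.add {G : StarSubalgebra ℂ A} {o E F : A} (h1 : Lk D G o E) (h2 : Lk D G o F) :
    Lk D G o (E + F) := by
  obtain ⟨ι, _, g, y, hg, hs⟩ := h1
  obtain ⟨κ, _, g', y', hg', hs'⟩ := h2
  refine ⟨ι ⊕ κ, inferInstance, Sum.elim g g', Sum.elim y y', ?_, ?_⟩
  · rintro (i | i)
    · exact hg i
    · exact hg' i
  · rw [Fintype.sum_sum_type]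
    simp [hs, hs']

lemma Lk.trans {G : StarSubalgebra ℂ A} (hcomm : ∀ x ∈ D, ∀ y ∈ D, x * y = y * x)
    {o F E : A} (C : Cover D F) (hFD : F ∈ D) (hF : IsStarProjection F)
    (hED : E ∈ D) (hE : IsStarProjection E)
    (hG : ∀ i < C.n, F * C.t i * C.e i * E ∈ G) (h : Lk D G o F) : Lk D G o E := by
  obtain ⟨ι, _, g, y, hg, hs⟩ := h
  refine ⟨ι × Fin C.n, inferInstance, fun p => g p.1 * (F * C.t p.2 * C.e p.2 * E),
    fun p => y p.1 * (F * C.t p.2 * C.e p.2 * E), ?_, ?_⟩
  · rintro ⟨i, j⟩
    refine ⟨G.mul_mem (hg i).1 (hG j j.2), ?_, ?_⟩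
    · refine M_mul hcomm (hg i).2.1 ?_
      exact M_mul hcomm (M_mul hcomm (M_mul hcomm (M_of_D hcomm hFD) (M_of_N (C.tN j)))
        (M_of_D hcomm (C.eD j))) (M_of_D hcomm hED)
    · show g i * _ = o * (y i * _)
      rw [(hg i).2.2, mul_assoc]
  · rw [Fintype.sum_prod_type_right]
    have h1 : ∀ j : Fin C.n, ∑ i, star (g i * (F * C.t j * C.e j * E)) * (g i * (F * C.t j * C.e j * E))
        = C.e j * E := by
      intro j
      set H := F * C.t j * C.e j * E with hH
      have h2 : F * H = H := by
        rw [hH]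
        calc F * (F * C.t j * C.e j * E) = (F * F) * C.t j * C.e j * E := by noncomm_ring
          _ = _ := by rw [hF.isIdempotentElem.eq]
      calc ∑ i, star (g i * H) * (g i * H) = ∑ i, star H * (star (g i) * g i) * H := by
            apply Finset.sum_congr rfl; intro i _; rw [star_mul]; noncomm_ring
        _ = star H * (∑ i, star (g i) * g i) * H := by rw [Finset.mul_sum, Finset.sum_mul]
        _ = star H * H := by rw [hs, mul_assoc, h2]
        _ = _ := C.star_mul_self hcomm hF hED hE j
    rw [Finset.sum_congr rfl (fun j _ => h1 j), ← Finset.sum_mul, ← Finset.sum_range (fun j => C.e j),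
      C.sum, one_mul]

lemma final_step (hcomm : ∀ x ∈ D, ∀ y ∈ D, x * y = y * x)
    (hgen : (StarAlgebra.adjoin ℂ
      (Set.centralizer (D : Set A) ∪ normalizers D)).topologicalClosure = ⊤)
    (G : StarSubalgebra ℂ A) (hGc : IsClosed (G : Set A)) (hDG : D ≤ G)
    (o1 o2 o3 v : A) (ho1D : o1 ∈ D) (ho2D : o2 ∈ D) (ho3D : o3 ∈ D) (hvD : v ∈ D)
    (ho1 : IsStarProjection o1) (ho2 : IsStarProjection o2) (ho3 : IsStarProjection o3)
    (hv : IsStarProjection v) (hsum : o1 + o2 + o3 + v = 1)
    (x : ℕ → A) (hx : MSet D ⊆ closure (Set.range x))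
    (hr : ∀ k, o2 * x k * o1 ∈ G)
    (C1 : Cover D o1) (C2 : Cover D o2) (C3 : Cover D o3)
    (hc : C3.op v ∈ G) (hd : C1.op o3 ∈ G) : G = ⊤ := by
  have P21 : ∀ y ∈ MSet D, o2 * y * o1 ∈ G := by
    intro y hy
    have hcl : IsClosed {y : A | o2 * y * o1 ∈ G} :=
      hGc.preimage ((continuous_const.mul continuous_id).mul continuous_const)
    have hsub : Set.range x ⊆ {y : A | o2 * y * o1 ∈ G} := by
      rintro _ ⟨k, rfl⟩; exact hr k
    exact closure_minimal hsub hcl (hx hy)
  have P12 : ∀ y ∈ MSet D, o1 * y * o2 ∈ G := by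
    intro y hy
    have h1 := star_mem (P21 _ (M_star hcomm hy))
    rw [star_mul, star_mul, star_star, ho1.isSelfAdjoint.star_eq, ho2.isSelfAdjoint.star_eq] at h1
    rwa [mul_assoc]
  have P11 : ∀ y ∈ MSet D, o1 * y * o1 ∈ G := by
    intro y hy
    have h1 : o1 * y * o1 = ∑ i ∈ Finset.range C2.n,
        (o1 * (y * C2.e i * star (C2.t i)) * o2) * (o2 * (C2.t i * C2.e i) * o1) := by
      have h2 : ∀ i, (o1 * (y * C2.e i * star (C2.t i)) * o2) * (o2 * (C2.t i * C2.e i) * o1)
          = o1 * y * C2.e i * o1 := by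
        intro i
        calc (o1 * (y * C2.e i * star (C2.t i)) * o2) * (o2 * (C2.t i * C2.e i) * o1)
            = o1 * y * (C2.e i * (star (C2.t i) * (o2 * o2) * C2.t i)) * C2.e i * o1 := by
              noncomm_ring
          _ = o1 * y * (C2.e i * C2.e i) * o1 := by
              rw [ho2.isIdempotentElem.eq, C2.le i]; noncomm_ring
          _ = _ := by rw [(C2.ep i).isIdempotentElem.eq]
      rw [Finset.sum_congr rfl (fun i _ => h2 i), ← Finset.sum_mul, ← Finset.mul_sum, C2.sum, mul_one]
    rw [h1]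
    apply sum_mem
    intro i _
    apply mul_mem
    · apply P12
      exact M_mul hcomm (M_mul hcomm hy (M_of_D hcomm (C2.eD i))) (M_of_N (N_star (C2.tN i)))
    · apply P21
      exact M_mul hcomm (M_of_N (C2.tN i)) (M_of_D hcomm (C2.eD i))
  have L1 : Lk D G o1 o1 := by
    refine ⟨Unit, inferInstance, fun _ => o1, fun _ => 1, ?_, ?_⟩
    · intro _; exact ⟨hDG ho1D, M_one, by simp⟩
    · simp [ho1.isSelfAdjoint.star_eq, ho1.isIdempotentElem.eq]
  have L2 : Lk D G o1 o2 := by
    refine Lk.trans hcomm C1 ho1D ho1 ho2D ho2 ?_ L1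
    intro i _
    have := P12 (C1.t i * C1.e i) (M_mul hcomm (M_of_N (C1.tN i)) (M_of_D hcomm (C1.eD i)))
    rwa [← mul_assoc] at this
  have L3 : Lk D G o1 o3 := by
    refine Lk.trans hcomm C1 ho1D ho1 ho3D ho3 ?_ L1
    intro i hi
    rw [← C1.op_mul hcomm ho3D hi]
    exact mul_mem hd (hDG (C1.eD i))
  have L4 : Lk D G o1 v := by
    refine Lk.trans hcomm C3 ho3D ho3 hvD hv ?_ L3
    intro i hi
    rw [← C3.op_mul hcomm hvD hi]
    exact mul_mem hc (hDG (C3.eD i))
  have L : Lk D G o1 1 := by
    rw [← hsum]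
    exact ((L1.add L2).add L3).add L4
  have hM : ∀ y ∈ MSet D, y ∈ G := by
    intro y hy
    obtain ⟨ι, _, g, z, hg, hs⟩ := L
    have h1 : y = ∑ i, ∑ j, star (g i) * (g i * y * star (g j)) * g j := by
      calc y = (∑ i, star (g i) * g i) * y * (∑ j, star (g j) * g j) := by rw [hs]; simp
        _ = _ := by
          rw [Finset.sum_mul, Finset.sum_mul]
          apply Finset.sum_congr rfl
          intro i _
          rw [Finset.mul_sum]
          apply Finset.sum_congr rfl
          intro j _
          noncomm_ring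
    rw [h1]
    apply sum_mem
    intro i _
    apply sum_mem
    intro j _
    apply mul_mem
    · apply mul_mem (star_mem (hg i).1)
      have h2 : g i * y * star (g j) = o1 * (z i * y * star (z j)) * o1 := by
        rw [(hg i).2.2, (hg j).2.2, star_mul, ho1.isSelfAdjoint.star_eq]; noncomm_ring
      rw [h2]
      exact P11 _ (M_mul hcomm (M_mul hcomm (hg i).2.1 hy) (M_star hcomm (hg j).2.1))
    · exact (hg j).1
  rw [eq_top_iff]
  intro a _
  have h1 := span_M_dense hcomm hgen a
  have h2 : (Submodule.span ℂ (MSet D) : Set A) ⊆ G := by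
    have : Submodule.span ℂ (MSet D) ≤ G.toSubalgebra.toSubmodule :=
      Submodule.span_le.mpr hM
    exact this
  exact closure_minimal h2 hGc h1


lemma recover (hcomm : ∀ x ∈ D, ∀ y ∈ D, x * y = y * x)
    (G : StarSubalgebra ℂ A) (hDG : D ≤ G) {w : A} (C : Cover D w) (hw : IsStarProjection w)
    {E : A} (hED : E ∈ D) (hE : IsStarProjection E) (r : A) (hrE : r * E = r)
    (hint : ∀ z ∈ D, ∃ z' ∈ D, z' * r = r * z)
    (hT : C.op E ∈ G) (hT' : r * star (C.op E) ∈ G) : r ∈ G := by
  have hz : ∀ j, ∃ z' ∈ D, z' * r = r * C.e j := fun j => hint _ (C.eD j)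
  choose z hzD hz using hz
  have h1 : r = ∑ j ∈ Finset.range C.n, z j * (r * star (C.op E)) * (C.op E * C.e j) := by
    have h2 : ∀ j ∈ Finset.range C.n, z j * (r * star (C.op E)) * (C.op E * C.e j)
        = r * (C.e j * E) := by
      intro j hj
      have hj' := Finset.mem_range.mp hj
      calc z j * (r * star (C.op E)) * (C.op E * C.e j)
          = (z j * r) * star (C.op E) * (C.op E * C.e j) := by noncomm_ring
        _ = r * (C.e j * star (C.op E)) * (C.op E * C.e j) := by rw [hz]; noncomm_ring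
        _ = r * (star (C.op E * C.e j) * (C.op E * C.e j)) := by
            rw [star_mul (C.op E) (C.e j), (C.ep j).isSelfAdjoint.star_eq]; noncomm_ring
        _ = r * (C.e j * E) := by
            rw [C.op_mul hcomm hED hj', C.star_mul_self hcomm hw hED hE j]
    rw [Finset.sum_congr rfl h2, ← Finset.mul_sum, ← Finset.sum_mul, C.sum, one_mul, hrE]
  rw [h1]
  apply sum_mem
  intro j _
  exact mul_mem (mul_mem (hDG (hzD j)) hT') (mul_mem hT (hDG (C.eD j)))

lemma Cover.mul_op {w : A} (C : Cover D w) (hw : IsStarProjection w) (E : A) :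
    w * C.op E = C.op E := by
  rw [Cover.op, Finset.mul_sum]
  apply Finset.sum_congr rfl
  intro i _
  calc w * (w * C.t i * C.e i * E) = (w * w) * C.t i * C.e i * E := by noncomm_ring
    _ = _ := by rw [hw.isIdempotentElem.eq]

lemma Cover.op_mul' {w : A} (C : Cover D w) {E : A} (hE : IsStarProjection E) :
    C.op E * E = C.op E := by
  rw [Cover.op, Finset.sum_mul]
  apply Finset.sum_congr rfl
  intro i _
  rw [mul_assoc, hE.isIdempotentElem.eq]

lemma exists_b (o1 o2 o3 v : A) (w : ℕ → A)
    (ho1 : IsStarProjection o1) (ho2 : IsStarProjection o2) (ho3 : IsStarProjection o3)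
    (hv : IsStarProjection v) (hw : ∀ k, IsStarProjection (w k))
    (hww : ∀ j k, j ≠ k → w j * w k = 0)
    (h12 : o1 * o2 = 0) (h13 : o1 * o3 = 0) (h23 : o2 * o3 = 0)
    (h1v : o1 * v = 0) (h2v : o2 * v = 0) (h3v : o3 * v = 0)
    (h1w : ∀ k, o1 * w k = 0) (h2w : ∀ k, o2 * w k = 0) (h3w : ∀ k, o3 * w k = 0)
    (T T' : ℕ → A) (hT : ∀ k, w k * T k = T k) (hT1 : ∀ k, T k * o1 = T k)
    (hT' : ∀ k, o2 * T' k = T' k) (hT'1 : ∀ k, T' k * w k = T' k)
    (c d : A) (hc : o3 * c = c) (hcv : c * v = c) (hd : o1 * d = d) (hd3 : d * o3 = d) :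
    ∃ b : A, IsSelfAdjoint b ∧ ∀ G : StarSubalgebra ℂ A, b ∈ G → o1 ∈ G → o2 ∈ G → o3 ∈ G →
      v ∈ G → (∀ k, w k ∈ G) → (∀ k, T k ∈ G) ∧ (∀ k, T' k ∈ G) ∧ c ∈ G ∧ d ∈ G := by
  -- adjoint relations
  have adj : ∀ {p q : A}, IsStarProjection p → IsStarProjection q → p * q = 0 → q * p = 0 := by
    intro p q hp hq h
    have := congrArg star h
    simpa [star_mul, hp.isSelfAdjoint.star_eq, hq.isSelfAdjoint.star_eq] using this
  have h21 := adj ho1 ho2 h12
  have h31 := adj ho1 ho3 h13
  have h32 := adj ho2 ho3 h23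
  have hv1 := adj ho1 hv h1v
  have hv2 := adj ho2 hv h2v
  have hv3 := adj ho3 hv h3v
  have hw1 := fun k => adj ho1 (hw k) (h1w k)
  have hw2 := fun k => adj ho2 (hw k) (h2w k)
  have hw3 := fun k => adj ho3 (hw k) (h3w k)
  let ε : ℕ → ℝ := fun k => (1/2 : ℝ)^k / (1 + ‖T k + T' k‖)
  have hεpos : ∀ k, 0 < ε k := fun k => by positivity
  have hsum : Summable (fun k => ε k • (T k + T' k)) := by
    refine Summable.of_norm_bounded (g := fun n => (1/2 : ℝ)^n)
      (summable_geometric_of_lt_one (by norm_num) (by norm_num)) ?_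
    intro k
    rw [norm_smul, Real.norm_eq_abs, abs_of_pos (hεpos k)]
    have h1 : 0 < 1 + ‖T k + T' k‖ := by positivity
    show (1/2 : ℝ)^k / (1 + ‖T k + T' k‖) * ‖T k + T' k‖ ≤ (1/2)^k
    rw [div_mul_eq_mul_div, div_le_iff₀ h1]
    have h2 : (0:ℝ) < (1/2 : ℝ)^k := by positivity
    nlinarith
  set W : A := ∑' k, ε k • (T k + T' k) with hW
  have hsand : ∀ P Q : A, P * W * Q = ∑' k, ε k • (P * T k * Q + P * T' k * Q) := by
    intro P Q
    rw [hW, ← hsum.tsum_mul_left P, ← (hsum.mul_left P).tsum_mul_right Q]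
    congr 1
    ext1 k
    rw [mul_smul_comm, smul_mul_assoc, mul_add, add_mul]
  have hsand0 : ∀ P Q : A, (∀ k, P * T k * Q = 0) → (∀ k, P * T' k * Q = 0) → P * W * Q = 0 := by
    intro P Q h1 h2
    rw [hsand]
    simp [h1, h2]
  have hsand1 : ∀ (P Q : A) (k : ℕ), (∀ j, j ≠ k → P * T j * Q = 0) →
      (∀ j, j ≠ k → P * T' j * Q = 0) → P * W * Q = ε k • (P * T k * Q + P * T' k * Q) := by
    intro P Q k h1 h2
    rw [hsand, tsum_eq_single k]
    intro j hj
    rw [h1 j hj, h2 j hj]; simp
  let b0 : A := W + c + d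
  have hb0 : ∀ P Q : A, P * b0 * Q = P * W * Q + P * c * Q + P * d * Q := by
    intro P Q
    show P * (W + c + d) * Q = _
    noncomm_ring
  have hstar : ∀ {P Q : A}, IsStarProjection P → IsStarProjection Q → Q * b0 * P = 0 →
      P * (b0 + star b0) * Q = P * b0 * Q := by
    intro P Q hP hQ h
    have h1 := congrArg star h
    rw [star_mul, star_mul, hP.isSelfAdjoint.star_eq, hQ.isSelfAdjoint.star_eq, star_zero,
      ← mul_assoc] at h1
    rw [mul_add, add_mul, h1, add_zero]
  -- the zero products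
  have z1 : ∀ {X p q : A}, X * p = X → p * q = 0 → X * q = 0 := by
    intro X p q h1 h2; rw [← h1, mul_assoc, h2, mul_zero]
  have z2 : ∀ {X p q : A}, p * X = X → q * p = 0 → q * X = 0 := by
    intro X p q h1 h2; rw [← h1, ← mul_assoc, h2, zero_mul]
  refine ⟨b0 + star b0, ?_, ?_⟩
  · rw [isSelfAdjoint_iff, star_add, star_star, add_comm]
  · intro G hb h1 h2 h3 h4 h5
    have eT : ∀ k, w k * (b0 + star b0) * o1 = ε k • T k := by
      intro k
      rw [hstar (hw k) ho1]
      · rw [hb0, hsand1 (w k) o1 k]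
        · have e1 : w k * T' k * o1 = 0 := by rw [mul_assoc, z1 (hT'1 k) (hw1 k), mul_zero]
          have e2 : w k * c * o1 = 0 := by rw [mul_assoc, z1 hcv hv1, mul_zero]
          have e3 : w k * d * o1 = 0 := by rw [z2 hd (hw1 k), zero_mul]
          rw [e1, e2, e3, hT, hT1]; simp
        · intro j hj
          rw [z2 (hT j) (hww k j (Ne.symm hj)), zero_mul]
        · intro j hj
          rw [mul_assoc, z1 (hT'1 j) (hw1 j), mul_zero]
      · rw [hb0, hsand0 o1 (w k)]
        · have e2 : o1 * c * w k = 0 := by rw [z2 hc h13, zero_mul]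
          have e3 : o1 * d * w k = 0 := by rw [mul_assoc, z1 hd3 (h3w k), mul_zero]
          rw [e2, e3]; simp
        · intro j; rw [mul_assoc, z1 (hT1 j) (h1w k), mul_zero]
        · intro j; rw [z2 (hT' j) h12, zero_mul]
    have eT' : ∀ k, o2 * (b0 + star b0) * w k = ε k • T' k := by
      intro k
      rw [hstar ho2 (hw k)]
      · rw [hb0, hsand1 o2 (w k) k]
        · have e1 : o2 * T k * w k = 0 := by rw [mul_assoc, z1 (hT1 k) (h1w k), mul_zero]
          have e2 : o2 * c * w k = 0 := by rw [z2 hc h23, zero_mul]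
          have e3 : o2 * d * w k = 0 := by rw [z2 hd h21, zero_mul]
          rw [e1, e2, e3, hT', hT'1]; simp
        · intro j hj
          rw [mul_assoc, z1 (hT1 j) (h1w k), mul_zero]
        · intro j hj
          rw [mul_assoc, z1 (hT'1 j) (hww j k hj), mul_zero]
      · rw [hb0, hsand0 (w k) o2]
        · have e2 : w k * c * o2 = 0 := by rw [z2 hc (hw3 k), zero_mul]
          have e3 : w k * d * o2 = 0 := by rw [z2 hd (hw1 k), zero_mul]
          rw [e2, e3]; simp
        · intro j; rw [mul_assoc, z1 (hT1 j) h12, mul_zero]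
        · intro j; rw [mul_assoc, z1 (hT'1 j) (hw2 j), mul_zero]
    have ec : o3 * (b0 + star b0) * v = c := by
      rw [hstar ho3 hv]
      · rw [hb0, hsand0 o3 v]
        · have e3 : o3 * d * v = 0 := by rw [z2 hd h31, zero_mul]
          rw [e3, hc, hcv]; simp
        · intro j; rw [mul_assoc, z1 (hT1 j) h1v, mul_zero]
        · intro j; rw [z2 (hT' j) h32, zero_mul]
      · rw [hb0, hsand0 v o3]
        · have e2 : v * c * o3 = 0 := by rw [z2 hc hv3, zero_mul]
          have e3 : v * d * o3 = 0 := by rw [z2 hd hv1, zero_mul]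
          rw [e2, e3]; simp
        · intro j; rw [mul_assoc, z1 (hT1 j) h13, mul_zero]
        · intro j; rw [mul_assoc, z1 (hT'1 j) (hw3 j), mul_zero]
    have ed : o1 * (b0 + star b0) * o3 = d := by
      rw [hstar ho1 ho3]
      · rw [hb0, hsand0 o1 o3]
        · have e3 : o1 * c * o3 = 0 := by rw [z2 hc h13, zero_mul]
          rw [e3, hd, hd3]; simp
        · intro j; rw [mul_assoc, z1 (hT1 j) h13, mul_zero]
        · intro j; rw [z2 (hT' j) h12, zero_mul]
      · rw [hb0, hsand0 o3 o1]
        · have e2 : o3 * c * o1 = 0 := by rw [mul_assoc, z1 hcv hv1, mul_zero]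
          have e3 : o3 * d * o1 = 0 := by rw [mul_assoc, z1 hd3 h31, mul_zero]
          rw [e2, e3]; simp
        · intro j; rw [z2 (hT j) (h3w j), zero_mul]
        · intro j; rw [z2 (hT' j) h32, zero_mul]
    have hinv : ∀ (k : ℕ) (X : A), ε k • X ∈ G → X ∈ G := by
      intro k X hX
      have h := G.smul_mem hX (((ε k)⁻¹ : ℝ) : ℂ)
      have h' : (((ε k)⁻¹ : ℝ) : ℂ) • (ε k • X) = X := by
        rw [Complex.coe_smul, smul_smul, inv_mul_cancel₀ (hεpos k).ne', one_smul]
      rwa [h'] at h
    refine ⟨?_, ?_, ?_, ?_⟩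
    · intro k
      apply hinv k
      rw [← eT k]
      exact mul_mem (mul_mem (h5 k) hb) h1
    · intro k
      apply hinv k
      rw [← eT' k]
      exact mul_mem (mul_mem h2 hb) (h5 k)
    · rw [← ec]; exact mul_mem (mul_mem h3 hb) h4
    · rw [← ed]; exact mul_mem (mul_mem h1 hb) h3

end Norm


section GeneralNormalizer
variable {A : Type*} [CStarAlgebra A] {D : StarSubalgebra ℂ A}

/-- characters agreeing on projections agree -/
lemma char_ext_of_proj
    (hproj : (D : Set A) ⊆ closure (Submodule.span ℂ {p : A | p ∈ D ∧ IsStarProjection p} : Set A))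
    (φ ψ : D → ℂ) (hφc : Continuous φ) (hψc : Continuous ψ)
    (hφ0 : φ 0 = ψ 0) (hφa : ∀ x y, φ x = ψ x → φ y = ψ y → φ (x + y) = ψ (x + y))
    (hφs : ∀ (c : ℂ) (x : D), φ x = ψ x → φ (c • x) = ψ (c • x))
    (h : ∀ q : D, IsStarProjection (q : A) → φ q = ψ q) (d : D) : φ d = ψ d := by
  have hsub : (Submodule.span ℂ {p : A | p ∈ D ∧ IsStarProjection p} : Set A) ⊆ (D : Set A) := by
    have : Submodule.span ℂ {p : A | p ∈ D ∧ IsStarProjection p} ≤ D.toSubalgebra.toSubmodule :=
      Submodule.span_le.mpr fun p hp => hp.1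
    exact this
  have hspan : ∀ q ∈ Submodule.span ℂ {p : A | p ∈ D ∧ IsStarProjection p},
      ∀ hq : q ∈ D, φ ⟨q, hq⟩ = ψ ⟨q, hq⟩ := by
    intro q hq
    induction hq using Submodule.span_induction with
    | mem y hy => intro hq; exact h ⟨y, hq⟩ hy.2
    | zero => intro hq; exact hφ0
    | add y z hy hz ihy ihz =>
      intro hq
      exact hφa ⟨y, hsub hy⟩ ⟨z, hsub hz⟩ (ihy _) (ihz _)
    | smul c y hy ihy =>
      intro hq
      exact hφs c ⟨y, hsub hy⟩ (ihy _)
  have hcl : IsClosed {d : D | φ d = ψ d} := isClosed_eq hφc hψc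
  have hdc : d ∈ closure (Subtype.val ⁻¹' (Submodule.span ℂ {p : A | p ∈ D ∧ IsStarProjection p} : Set A)) := by
    rw [closure_subtype]
    have himg : (Subtype.val '' (Subtype.val ⁻¹'
        (Submodule.span ℂ {p : A | p ∈ D ∧ IsStarProjection p} : Set A) : Set D) : Set A)
        = (Submodule.span ℂ {p : A | p ∈ D ∧ IsStarProjection p} : Set A) := by
      ext y
      constructor
      · rintro ⟨z, hz, rfl⟩
        exact hz
      · intro hy
        exact ⟨⟨y, hsub hy⟩, hy, rfl⟩
    rw [himg]
    exact hproj d.2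
  have : closure (Subtype.val ⁻¹' (Submodule.span ℂ {p : A | p ∈ D ∧ IsStarProjection p} : Set A))
      ⊆ {d : D | φ d = ψ d} := by
    apply closure_minimal _ hcl
    intro d hd
    exact hspan d.1 hd d.2
  exact this hdc

lemma normalizer_approx (hDc : IsClosed (D : Set A))
    (hcomm : ∀ x ∈ D, ∀ y ∈ D, x * y = y * x)
    (hproj : (D : Set A) ⊆ closure (Submodule.span ℂ {p : A | p ∈ D ∧ IsStarProjection p} : Set A))
    {n : A} (hn1 : ∀ d ∈ D, n * d * star n ∈ D) (hn2 : ∀ d ∈ D, star n * d * n ∈ D) :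
    n ∈ closure (MSet D) := by
  classical
  let : CommCStarAlgebra D :=
    { StarSubalgebra.cstarAlgebra D (h_closed := hDc) with
      mul_comm := fun x y => Subtype.ext (hcomm x x.2 y y.2) }
  let X := characterSpace ℂ D
  have hhD : star n * n ∈ D := by simpa using hn2 1 D.one_mem
  let h : D := ⟨star n * n, hhD⟩
  let F := gelfandStarTransform D
  have hiso : Isometry F := gelfandTransform_isometry D
  have hFapp : ∀ (d : D) (χ : X), F d χ = χ d := fun d χ => rfl
  -- total disconnectedness
  have h01 : ∀ (χ : X) (q : D), IsStarProjection (q : A) → χ q = 0 ∨ χ q = 1 := by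
    intro χ q hq
    have hqq : q * q = q := Subtype.ext hq.isIdempotentElem
    have h1 : χ q * χ q = χ q := by rw [← map_mul, hqq]
    have h2 : χ q * (χ q - 1) = 0 := by rw [mul_sub, h1]; ring
    rcases mul_eq_zero.mp h2 with h | h
    · left; exact h
    · right; exact sub_eq_zero.mp h
  have htd : TotallySeparatedSpace X := by
    rw [totallySeparatedSpace_iff_exists_isClopen]
    intro φ ψ hne
    have h1 : ∃ q : D, IsStarProjection (q : A) ∧ φ q ≠ ψ q := by
      by_contra hcon
      push Not at hcon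
      apply hne
      have hall : ∀ d : D, φ d = ψ d := by
        intro d
        refine char_ext_of_proj hproj (fun d => φ d) (fun d => ψ d)
          (map_continuous (CharacterSpace.toCLM φ)) (map_continuous (CharacterSpace.toCLM ψ)) ?_ ?_ ?_
          hcon d
        · simp
        · intro x y hx hy
          simp only [map_add] at *
          rw [hx, hy]
        · intro c x hx
          simp only [map_smul] at *
          rw [hx]
      exact Subtype.ext (ContinuousLinearMap.ext hall)
    obtain ⟨q, hq, hqne⟩ := h1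
    have hcl1 : IsClosed {χ : X | F q χ = 1} := isClosed_eq (F q).continuous continuous_const
    have hcl0 : IsClosed {χ : X | F q χ = 0} := isClosed_eq (F q).continuous continuous_const
    have hcompl : {χ : X | F q χ = 1}ᶜ = {χ : X | F q χ = 0} := by
      ext χ
      rcases h01 χ q hq with h | h
      · simp [hFapp, h]
      · simp [hFapp, h]
    have hclop : IsClopen {χ : X | F q χ = 1} := by
      refine ⟨hcl1, ?_⟩
      rw [← isClosed_compl_iff, hcompl]
      exact hcl0
    rcases h01 φ q hq with hf | hf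
    · rcases h01 ψ q hq with hg | hg
      · exact absurd (hf.trans hg.symm) hqne
      · refine ⟨{χ : X | F q χ = 1}ᶜ, hclop.compl, ?_, ?_⟩
        · simp [hFapp, hf]
        · simp [hFapp, hg]
    · rcases h01 ψ q hq with hg | hg
      · refine ⟨{χ : X | F q χ = 1}, hclop, ?_, ?_⟩
        · simp [hFapp, hf]
        · simp [hFapp, hg]
      · exact absurd (hf.trans hg.symm) hqne
  -- positivity
  have hDc' : IsClosed (D : Set A) := hDc
  have hpos : ∀ χ : X, ∃ r : ℝ, 0 ≤ r ∧ χ h = (r : ℂ) := by
    intro χ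
    have h1 : χ h ∈ spectrum ℂ h := AlgHom.apply_mem_spectrum χ h
    have h2 : χ h ∈ spectrum ℂ (star n * n) := by
      have := StarSubalgebra.spectrum_eq D (a := h)
      rw [this] at h1
      exact h1
    have hsa : IsSelfAdjoint (star n * n) := IsSelfAdjoint.star_mul_self n
    have h3 := hsa.mem_spectrum_eq_re h2
    refine ⟨(χ h).re, ?_, h3⟩
    have h4 : (χ h).re ∈ spectrum ℝ (star n * n) := by
      rw [← spectrum.algebraMap_mem_iff ℂ]
      rw [h3] at h2
      exact h2
    exact spectrum_star_mul_self_nonneg _ h4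
  have hR0 : ∀ χ : X, 0 ≤ (F h χ).re ∧ F h χ = (((F h χ).re : ℝ) : ℂ) := by
    intro χ
    obtain ⟨r, hr, hr'⟩ := hpos χ
    have : F h χ = (r : ℂ) := hr'
    rw [this]; simpa using hr
  rw [Metric.mem_closure_iff]
  intro ε hε
  set δ : ℝ := ε^2/4 with hδdef
  have hδ : 0 < δ := by positivity
  have hRc : Continuous (fun χ : X => (F h χ).re) := Complex.continuous_re.comp (F h).continuous
  obtain ⟨K, hK, hZK, hKU⟩ := exists_clopen_of_closed_subset_open (X := X)
    (Z := {χ : X | 2 * δ ≤ (F h χ).re}) (U := {χ : X | δ < (F h χ).re})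
    (isClosed_le continuous_const hRc) (isOpen_lt continuous_const hRc)
    (fun χ hχ => lt_of_lt_of_le (by linarith : δ < 2 * δ) hχ)
  let mx : X → ℝ := fun χ => max ((F h χ).re) δ
  have hmx : ∀ χ, 0 < mx χ := fun χ => lt_of_lt_of_le hδ (le_max_right _ _)
  have hmxc : Continuous mx := hRc.max continuous_const
  have hmxK : ∀ χ ∈ K, mx χ = (F h χ).re := fun χ hχ => max_eq_left (le_of_lt (hKU hχ))
  let pK : C(X, ℂ) := ⟨K.indicator (fun _ => 1), hK.continuous_indicator continuous_const⟩
  have hpK1 : ∀ χ ∈ K, pK χ = 1 := fun χ hχ => by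
    show K.indicator (fun _ => (1:ℂ)) χ = 1
    rw [Set.indicator_of_mem hχ]
  have hpK0 : ∀ χ, χ ∉ K → pK χ = 0 := fun χ hχ => by
    show K.indicator (fun _ => (1:ℂ)) χ = 0
    rw [Set.indicator_of_notMem hχ]
  let m1 : C(X, ℂ) := ⟨fun χ => (((Real.sqrt (mx χ))⁻¹ : ℝ) : ℂ), by
    refine Complex.continuous_ofReal.comp ?_
    exact (Real.continuous_sqrt.comp hmxc).inv₀ (fun χ => (Real.sqrt_pos.mpr (hmx χ)).ne')⟩
  let m2 : C(X, ℂ) := ⟨fun χ => ((Real.sqrt (mx χ) : ℝ) : ℂ),
    Complex.continuous_ofReal.comp (Real.continuous_sqrt.comp hmxc)⟩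
  have hm12 : ∀ χ, m1 χ * m2 χ = 1 := by
    intro χ
    show (((Real.sqrt (mx χ))⁻¹ : ℝ) : ℂ) * ((Real.sqrt (mx χ) : ℝ) : ℂ) = 1
    rw [← Complex.ofReal_mul, inv_mul_cancel₀ (Real.sqrt_pos.mpr (hmx χ)).ne', Complex.ofReal_one]
  have hm11 : ∀ χ ∈ K, m1 χ * m1 χ * F h χ = 1 := by
    intro χ hχ
    show (((Real.sqrt (mx χ))⁻¹ : ℝ) : ℂ) * (((Real.sqrt (mx χ))⁻¹ : ℝ) : ℂ) * F h χ = 1
    rw [(hR0 χ).2, ← hmxK χ hχ, ← Complex.ofReal_mul, ← Complex.ofReal_mul, ← mul_inv,
      Real.mul_self_sqrt (hmx χ).le, inv_mul_cancel₀ (hmx χ).ne', Complex.ofReal_one]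
  have hFinj : Function.Injective (fun d : D => F d) := EquivLike.injective F
  have hFinj : ∀ {x y : D}, F x = F y → x = y := fun {x y} hxy => hFinj hxy
  let p : D := F.symm pK
  let g : D := F.symm (pK * m1)
  let q : D := F.symm (pK * m2)
  have hFp : F p = pK := F.apply_symm_apply pK
  have hFg : F g = pK * m1 := F.apply_symm_apply _
  have hFq : F q = pK * m2 := F.apply_symm_apply _
  have hgsa : star g = g := by
    apply hFinj
    rw [map_star, hFg]
    ext χ
    by_cases hχ : χ ∈ K
    · simp [ContinuousMap.star_apply, hpK1 χ hχ, m1]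
    · simp [ContinuousMap.star_apply, hpK0 χ hχ]
  have hpsa : star p = p := by
    apply hFinj
    rw [map_star, hFp]
    ext χ
    by_cases hχ : χ ∈ K
    · simp [ContinuousMap.star_apply, hpK1 χ hχ]
    · simp [ContinuousMap.star_apply, hpK0 χ hχ]
  have hghg : g * (g * h * g) = g := by
    apply hFinj
    rw [map_mul, map_mul, map_mul, hFg]
    ext χ
    by_cases hχ : χ ∈ K
    · simp only [ContinuousMap.mul_apply, hpK1 χ hχ, one_mul]
      have := hm11 χ hχ
      linear_combination (m1 χ) * this
    · simp [hpK0 χ hχ]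
  have hgq : g * q = p := by
    apply hFinj
    rw [map_mul, hFg, hFq, hFp]
    ext χ
    by_cases hχ : χ ∈ K
    · simp only [ContinuousMap.mul_apply, hpK1 χ hχ, one_mul]
      exact hm12 χ
    · simp [hpK0 χ hχ]
  have hnorm : ‖(1 - p) * h * (1 - p)‖ ≤ 2 * δ := by
    have h1 : ‖F ((1 - p) * h * (1 - p))‖ = ‖(1 - p) * h * (1 - p)‖ := by
      have := hiso.dist_eq ((1 - p) * h * (1 - p)) 0
      rw [map_zero, dist_zero_right, dist_zero_right] at this
      exact this
    rw [← h1, ContinuousMap.norm_le _ (by positivity)]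
    intro χ
    rw [map_mul, map_mul, map_sub, map_one, hFp]
    by_cases hχ : χ ∈ K
    · simp only [ContinuousMap.mul_apply, ContinuousMap.sub_apply, ContinuousMap.one_apply,
        hpK1 χ hχ, sub_self, zero_mul, norm_zero]
      positivity
    · simp only [ContinuousMap.mul_apply, ContinuousMap.sub_apply, ContinuousMap.one_apply,
        hpK0 χ hχ, sub_zero, one_mul, mul_one]
      have h2 : (F h χ).re < 2 * δ := by
        by_contra hcon
        exact hχ (hZK (not_lt.mp hcon))
      rw [(hR0 χ).2, Complex.norm_real, Real.norm_eq_abs, abs_of_nonneg (hR0 χ).1]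
      exact h2.le
  refine ⟨n * (p : A), ?_, ?_⟩
  · -- membership
    refine ⟨n * (g : A), ⟨?_, ?_, ?_⟩, (q : A), fun m hm => hcomm m hm _ q.2, ?_⟩
    · have h1 : (g : A) * ((g : A) * (star n * n) * (g : A)) = (g : A) :=
        congrArg Subtype.val hghg
      have h2 : star (g : A) = (g : A) := congrArg Subtype.val hgsa
      calc n * (g : A) * star (n * (g : A)) * (n * (g : A))
          = n * ((g : A) * (star (g : A) * (star n * n) * (g : A))) := by
            rw [star_mul]; noncomm_ring
        _ = n * (g : A) := by rw [h2, h1]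
    · intro d hd
      have h2 : star (g : A) = (g : A) := congrArg Subtype.val hgsa
      have : n * (g : A) * d * star (n * (g : A)) = n * ((g : A) * d * (g : A)) * star n := by
        rw [star_mul, h2]; noncomm_ring
      rw [this]
      exact hn1 _ (D.mul_mem (D.mul_mem g.2 hd) g.2)
    · intro d hd
      have h2 : star (g : A) = (g : A) := congrArg Subtype.val hgsa
      have : star (n * (g : A)) * d * (n * (g : A)) = (g : A) * (star n * d * n) * (g : A) := by
        rw [star_mul, h2]; noncomm_ring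
      rw [this]
      exact D.mul_mem (D.mul_mem g.2 (hn2 _ hd)) g.2
    · have h1 : (g : A) * (q : A) = (p : A) := congrArg Subtype.val hgq
      rw [mul_assoc, h1]
  · rw [dist_eq_norm]
    have h1 : ‖n - n * (p : A)‖ * ‖n - n * (p : A)‖ = ‖(1 - p) * h * (1 - p)‖ := by
      rw [← CStarRing.norm_star_mul_self]
      have h2 : star (p : A) = (p : A) := congrArg Subtype.val hpsa
      have h3 : star (n - n * (p : A)) * (n - n * (p : A))
          = (1 - (p : A)) * (star n * n) * (1 - (p : A)) := by
        rw [star_sub, star_mul, h2]; noncomm_ring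
      rw [h3]
      rfl
    have h4 : ‖n - n * (p : A)‖ * ‖n - n * (p : A)‖ < ε * ε := by
      rw [h1]
      refine lt_of_le_of_lt hnorm ?_
      rw [hδdef]; nlinarith
    exact lt_of_mul_self_lt_mul_self₀ hε.le h4

end GeneralNormalizer

section Final
variable {A : Type*} [CStarAlgebra A]

lemma one_mem_of_close (H : NonUnitalStarSubalgebra ℂ A) (hH : IsClosed (H : Set A))
    (a : A) (ha : a ∈ H) (h : ‖1 - a‖ < 1) : (1 : A) ∈ H := by
  have h1 : ∀ n : ℕ, 1 - (1 - a)^n ∈ H := by
    intro n
    induction n with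
    | zero => simp
    | succ n ih =>
      have : 1 - (1 - a)^(n+1) = (1 - (1-a)^n) + a - (1 - (1-a)^n) * a := by
        rw [pow_succ]; noncomm_ring
      rw [this]
      exact sub_mem (add_mem ih ha) (mul_mem ih ha)
  have h2 : Filter.Tendsto (fun n : ℕ => 1 - (1 - a)^n) Filter.atTop (nhds (1 - 0)) :=
    tendsto_const_nhds.sub (tendsto_pow_atTop_nhds_zero_of_norm_lt_one h)
  rw [sub_zero] at h2
  exact hH.mem_of_tendsto h2 (Filter.Eventually.of_forall h1)

lemma main_pi [TopologicalSpace.SeparableSpace A]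
    (hsimple : ∀ I : TwoSidedIdeal A, IsClosed (I : Set A) → I = ⊥ ∨ I = ⊤)
    (D : StarSubalgebra ℂ A) (hDc : IsClosed (D : Set A))
    (hcomm : ∀ x ∈ D, ∀ y ∈ D, x * y = y * x)
    (hproj : (D : Set A) ⊆ closure (Submodule.span ℂ {p : A | p ∈ D ∧ IsStarProjection p} : Set A))
    (hinf : ¬ FiniteDimensional ℂ D)
    (hgen : (StarAlgebra.adjoin ℂ
      (Set.centralizer (D : Set A) ∪ normalizers D)).topologicalClosure = ⊤) :
    ∃ x : A, NonUnitalStarAlgebra.elemental ℂ x = ⊤ := by
  obtain ⟨a, haD, hasa, hagen⟩ := exists_gen_comm D hDc hcomm hproj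
  obtain ⟨e, heD, hep, he0, horth⟩ := exists_orthogonal_seq D hcomm hproj hinf
  obtain ⟨x, hxM, hx⟩ := exists_seq_dense (MSet D) ⟨1, M_one⟩
  have hcov : ∀ {v : A}, v ∈ D → IsStarProjection v → v ≠ 0 → Nonempty (Cover D v) := by
    intro v h1 h2 h3
    obtain ⟨n, e, t, c1, c2, c3, c4, c5, c6⟩ := exists_cover hcomm hgen hsimple h1 h2 h3
    exact ⟨⟨n, e, t, c1, c2, c3, c4, c5, c6⟩⟩
  obtain ⟨C1⟩ := hcov (heD 0) (hep 0) (he0 0)
  obtain ⟨C2⟩ := hcov (heD 1) (hep 1) (he0 1)
  obtain ⟨C3⟩ := hcov (heD 2) (hep 2) (he0 2)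
  have hCw : ∀ k, Nonempty (Cover D (e (k+3))) := fun k => hcov (heD _) (hep _) (he0 _)
  let Cw : ∀ k, Cover D (e (k+3)) := fun k => (hCw k).some
  -- the remaining projection
  set v : A := 1 - (e 0 + e 1 + e 2) with hvdef
  have h01 := horth 0 1 (by norm_num)
  have h02 := horth 0 2 (by norm_num)
  have h12 := horth 1 2 (by norm_num)
  have h10 := horth 1 0 (by norm_num)
  have h20 := horth 2 0 (by norm_num)
  have h21 := horth 2 1 (by norm_num)
  have hi0 : e 0 * e 0 = e 0 := (hep 0).isIdempotentElem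
  have hi1 : e 1 * e 1 = e 1 := (hep 1).isIdempotentElem
  have hi2 : e 2 * e 2 = e 2 := (hep 2).isIdempotentElem
  have hvD : v ∈ D := D.sub_mem D.one_mem (D.add_mem (D.add_mem (heD 0) (heD 1)) (heD 2))
  have hv : IsStarProjection v := by
    apply IsStarProjection.one_sub
    apply IsStarProjection.add (IsStarProjection.add (hep 0) (hep 1) h01) (hep 2)
    rw [add_mul, h02, h12, add_zero]
  have h0v : e 0 * v = 0 := by rw [hvdef, mul_sub, mul_add, mul_add, hi0, h01, h02]; simp
  have h1v : e 1 * v = 0 := by rw [hvdef, mul_sub, mul_add, mul_add, hi1, h10, h12]; simp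
  have h2v : e 2 * v = 0 := by rw [hvdef, mul_sub, mul_add, mul_add, hi2, h20, h21]; simp
  -- the rows
  let T : ℕ → A := fun k => (Cw k).op (e 0)
  let r : ℕ → A := fun k => e 1 * x k * e 0
  let T' : ℕ → A := fun k => r k * star (T k)
  have hT : ∀ k, e (k+3) * T k = T k := fun k => (Cw k).mul_op (hep _) _
  have hT1 : ∀ k, T k * e 0 = T k := fun k => (Cw k).op_mul' (hep 0)
  have hT' : ∀ k, e 1 * T' k = T' k := by
    intro k
    show e 1 * (e 1 * x k * e 0 * star (T k)) = e 1 * x k * e 0 * star (T k)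
    calc e 1 * (e 1 * x k * e 0 * star (T k)) = (e 1 * e 1) * x k * e 0 * star (T k) := by
          noncomm_ring
      _ = _ := by rw [hi1]
  have hT'1 : ∀ k, T' k * e (k+3) = T' k := by
    intro k
    have h1 : star (T k) * e (k+3) = star (T k) := by
      have := congrArg star (hT k)
      rwa [star_mul, (hep (k+3)).isSelfAdjoint.star_eq] at this
    show r k * star (T k) * e (k+3) = r k * star (T k)
    rw [mul_assoc, h1]
  have hc : e 2 * C3.op v = C3.op v := C3.mul_op (hep 2) _
  have hcv : C3.op v * v = C3.op v := C3.op_mul' hv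
  have hd : e 0 * C1.op (e 2) = C1.op (e 2) := C1.mul_op (hep 0) _
  have hd3 : C1.op (e 2) * e 2 = C1.op (e 2) := C1.op_mul' (hep 2)
  obtain ⟨b, hbsa, hb⟩ := exists_b (e 0) (e 1) (e 2) v (fun k => e (k+3))
    (hep 0) (hep 1) (hep 2) hv (fun k => hep (k+3))
    (fun j k hjk => horth _ _ (by omega)) h01 h02 h12 h0v h1v h2v
    (fun k => horth _ _ (by omega)) (fun k => horth _ _ (by omega)) (fun k => horth _ _ (by omega))
    T T' hT hT1 hT' hT'1 (C3.op v) (C1.op (e 2)) hc hcv hd hd3
  -- closed unital star subalgebras containing a and b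
  have key : ∀ G : StarSubalgebra ℂ A, IsClosed (G : Set A) → a ∈ G → b ∈ G → G = ⊤ := by
    intro G hGc haG hbG
    have hDG : D ≤ G := hagen G hGc haG
    obtain ⟨g1, g2, g3, g4⟩ := hb G hbG (hDG (heD 0)) (hDG (heD 1)) (hDG (heD 2)) (hDG hvD)
      (fun k => hDG (heD _))
    have hr : ∀ k, e 1 * x k * e 0 ∈ G := by
      intro k
      refine recover hcomm G hDG (Cw k) (hep _) (heD 0) (hep 0) (r k) ?_ ?_ (g1 k) (g2 k)
      · show e 1 * x k * e 0 * e 0 = e 1 * x k * e 0
        rw [mul_assoc, hi0]
      · intro z hz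
        obtain ⟨z', hz'D, hz'⟩ := M_intertwine hcomm (hxM k) hz
        refine ⟨z', hz'D, ?_⟩
        have c1 := hcomm _ hz'D _ (heD 1)
        have c2 := hcomm _ hz _ (heD 0)
        show z' * (e 1 * x k * e 0) = e 1 * x k * e 0 * z
        calc z' * (e 1 * x k * e 0) = (z' * e 1) * x k * e 0 := by noncomm_ring
          _ = e 1 * (z' * x k) * e 0 := by rw [c1]; noncomm_ring
          _ = e 1 * x k * (z * e 0) := by rw [hz']; noncomm_ring
          _ = _ := by rw [c2]; noncomm_ring
    have hsum1 : e 0 + e 1 + e 2 + v = 1 := by rw [hvdef]; abel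
    exact final_step hcomm hgen G hGc hDG (e 0) (e 1) (e 2) v (heD 0) (heD 1) (heD 2) hvD
      (hep 0) (hep 1) (hep 2) hv hsum1 x hx hr C1 C2 C3 g3 g4
  -- the generator
  let δ : ℝ := 1 / (2 * (1 + ‖a‖))
  have hδ : 0 < δ := by positivity
  let a' : A := 1 + δ • a
  have ha'sa : IsSelfAdjoint a' := (IsSelfAdjoint.one A).add ((IsSelfAdjoint.all δ).smul hasa)
  refine ⟨a' + Complex.I • b, ?_⟩
  set H := NonUnitalStarAlgebra.elemental ℂ (a' + Complex.I • b) with hH
  have hHc : IsClosed (H : Set A) := NonUnitalStarAlgebra.elemental.isClosed ℂ _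
  have hx1 : a' + Complex.I • b ∈ H := NonUnitalStarAlgebra.elemental.self_mem ℂ _
  have hx2 : star (a' + Complex.I • b) ∈ H := NonUnitalStarAlgebra.elemental.star_self_mem ℂ _
  have hx2' : star (a' + Complex.I • b) = a' - Complex.I • b := by
    rw [star_add, star_smul, ha'sa.star_eq, hbsa.star_eq]
    simp [sub_eq_add_neg]
  rw [hx2'] at hx2
  have ha' : a' ∈ H := by
    have : a' = (1/2 : ℂ) • ((a' + Complex.I • b) + (a' - Complex.I • b)) := by
      have : (a' + Complex.I • b) + (a' - Complex.I • b) = (2:ℂ) • a' := by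
        rw [two_smul]; abel
      rw [this, smul_smul]; norm_num
    rw [this]
    exact SMulMemClass.smul_mem _ (add_mem hx1 hx2)
  have hbH : b ∈ H := by
    have : b = (1/(2 * Complex.I) : ℂ) • ((a' + Complex.I • b) - (a' - Complex.I • b)) := by
      have : (a' + Complex.I • b) - (a' - Complex.I • b) = (2 * Complex.I) • b := by
        rw [two_mul, add_smul]; abel
      rw [this, smul_smul]
      have : (1/(2 * Complex.I) : ℂ) * (2 * Complex.I) = 1 := by
        rw [one_div, inv_mul_cancel₀]
        simp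
      rw [this, one_smul]
    rw [this]
    exact SMulMemClass.smul_mem _ (sub_mem hx1 hx2)
  have hnorm : ‖1 - a'‖ < 1 := by
    have : 1 - a' = -(δ • a) := by simp [a']
    rw [this, norm_neg, norm_smul, Real.norm_eq_abs, abs_of_pos hδ]
    show 1 / (2 * (1 + ‖a‖)) * ‖a‖ < 1
    rw [div_mul_eq_mul_div, div_lt_one (by positivity)]
    nlinarith [norm_nonneg a]
  have h1H : (1 : A) ∈ H := one_mem_of_close H hHc a' ha' hnorm
  have haH : a ∈ H := by
    have h1 : δ • a ∈ H := by
      have : δ • a = a' - 1 := by simp [a']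
      rw [this]
      exact sub_mem ha' h1H
    have h2 : a = ((δ⁻¹ : ℝ) : ℂ) • (δ • a) := by
      rw [Complex.coe_smul, smul_smul, inv_mul_cancel₀ hδ.ne', one_smul]
    rw [h2]
    exact SMulMemClass.smul_mem _ h1
  have hG := key (H.toStarSubalgebra h1H) hHc haH hbH
  rw [eq_top_iff]
  intro y _
  have : y ∈ H.toStarSubalgebra h1H := by rw [hG]; trivial
  exact this

end Final

/-- **Theorem.** Let `A` be a unital simple separable C*-algebra and `D ⊆ A` a unital commutative
C*-subalgebra which is infinite-dimensional and is the closed linear span of its projections.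
If `A` is generated as a C*-algebra by the relative commutant of `D` together with the normalizer
`{n | n D n* ⊆ D and n* D n ⊆ D}` of `D`, then `A` is singly generated: some `x ∈ A` is contained in
no proper C*-subalgebra of `A` (unital or not). -/
theorem zeroDimRegular {A : Type*} [CStarAlgebra A] [TopologicalSpace.SeparableSpace A]
    (hsimple : ∀ I : TwoSidedIdeal A, IsClosed (I : Set A) → I = ⊥ ∨ I = ⊤)
    (D : StarSubalgebra ℂ A) (hDclosed : IsClosed (D : Set A))
    (hDcomm : ∀ x ∈ D, ∀ y ∈ D, x * y = y * x)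
    (hDproj : (D : Set A) ⊆
      closure (Submodule.span ℂ {p : A | p ∈ D ∧ IsStarProjection p} : Set A))
    (hDinf : ¬ FiniteDimensional ℂ D)
    (hgen : (StarAlgebra.adjoin ℂ (Set.centralizer (D : Set A) ∪
      {n : A | (∀ d ∈ D, n * d * star n ∈ D) ∧ ∀ d ∈ D, star n * d * n ∈ D})).topologicalClosure
        = ⊤) :
    ∃ x : A, NonUnitalStarAlgebra.elemental ℂ x = ⊤ := by
  refine main_pi hsimple D hDclosed hDcomm hDproj hDinf ?_
  set G := (StarAlgebra.adjoin ℂ
      (Set.centralizer (D : Set A) ∪ normalizers D)).topologicalClosure with hG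
  have hGc : IsClosed (G : Set A) := StarSubalgebra.isClosed_topologicalClosure _
  have hsub : Set.centralizer (D : Set A) ∪ normalizers D ⊆ (G : Set A) := fun x hx =>
    StarSubalgebra.le_topologicalClosure _ (StarAlgebra.subset_adjoin ℂ _ hx)
  have hM : MSet D ⊆ (G : Set A) := by
    rintro x ⟨s, hs, c, hc, rfl⟩
    exact mul_mem (hsub (Or.inr hs)) (hsub (Or.inl hc))
  have hle : StarAlgebra.adjoin ℂ (Set.centralizer (D : Set A) ∪
      {n : A | (∀ d ∈ D, n * d * star n ∈ D) ∧ ∀ d ∈ D, star n * d * n ∈ D}) ≤ G := by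
    apply StarAlgebra.adjoin_le
    rintro n (hn | hn)
    · exact hsub (Or.inl hn)
    · exact closure_minimal hM hGc
        (normalizer_approx hDclosed hDcomm hDproj hn.1 hn.2)
  have h2 := StarSubalgebra.topologicalClosure_minimal hle hGc
  rw [hgen] at h2
  exact top_le_iff.mp h2

end Pool.Agent.H27.ZDR
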